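import Pool.Agent.Y895.OL.A7
import Pool.Agent.Y895.FB.F5

set_option autoImplicit false

/-!
# Sequences with a positive proportion of prescribed digits
-/

open Filter Topology

namespace Pool.Agent.Y895.OL

open Pool.Agent.Y895.PM (pow_exp)
open Pool.Agent.Y895.FB (pow_expα)

/-- the number of free base `b` digits when a positive proportion is prescribed -/
noncomputable def dmost (b : ℕ) (α δ : ℝ) (p : ℕ) : ℕ :=
  ⌊(p * Real.log α - δ * p) / Real.log b⌋₊

lemma dmost_mono {b : ℕ} (hb : 2 ≤ b) {α δ : ℝ} (hδ : δ ≤ Real.log α) (p : ℕ) :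
    dmost b α δ p ≤ dmost b α δ (p + 1) := by
  have hbr : (2 : ℝ) ≤ b := by exact_mod_cast hb
  have hlb : 0 < Real.log b := Real.log_pos (by linarith)
  unfold dmost
  apply Nat.floor_mono
  apply div_le_div_of_nonneg_right _ hlb.le
  push_cast
  linarith

lemma dmost_spec {b : ℕ} (hb : 2 ≤ b) {α δ c C : ℝ} (hα : 1 < α) (hδ : 0 < δ)
    (hδ1 : δ ≤ Real.log α) (hc : 0 < c)
    (hC : 0 < C) {Q : ℕ → ℕ} (hQ : ∀ᶠ p : ℕ in atTop, c * α ^ p ≤ Q p ∧ (Q p : ℝ) ≤ C * α ^ p) :
    Tendsto (fun p => Q p / b ^ dmost b α δ p) atTop atTop ∧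
    ∀ᶠ p : ℕ in atTop, Real.log (Q p / b ^ dmost b α δ p : ℕ) ≤ 2 * δ * p := by
  have hbr : (2 : ℝ) ≤ b := by exact_mod_cast hb
  have hb0 : (0 : ℝ) < b := by linarith
  have hlb : 0 < Real.log b := Real.log_pos (by linarith)
  have hla : 0 < Real.log α := Real.log_pos hα
  have hα0 : 0 < α := by linarith
  have hd : Tendsto (fun p : ℕ => δ * (p : ℝ)) atTop atTop :=
    Tendsto.const_mul_atTop hδ tendsto_natCast_atTop_atTop
  have key : ∀ p : ℕ, (b : ℝ) ^ dmost b α δ p ≤ α ^ p * Real.exp (-(δ * p)) ∧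
      α ^ p * Real.exp (-(δ * p)) ≤ b * (b : ℝ) ^ dmost b α δ p := by
    intro p
    have hx : 0 ≤ (p * Real.log α - δ * p) / Real.log b := by
      apply div_nonneg _ hlb.le
      have : (p : ℝ) * (Real.log α - δ) ≥ 0 := mul_nonneg (Nat.cast_nonneg p) (by linarith)
      linarith
    have h1 : (dmost b α δ p : ℝ) ≤ (p * Real.log α - δ * p) / Real.log b := Nat.floor_le hx
    have h2 : (p * Real.log α - δ * p) / Real.log b < dmost b α δ p + 1 := Nat.lt_floor_add_one _
    rw [le_div_iff₀ hlb] at h1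
    rw [div_lt_iff₀ hlb] at h2
    have e1 : α ^ p * Real.exp (-(δ * p)) = Real.exp (p * Real.log α - δ * p) := by
      rw [pow_expα hα p, ← Real.exp_add]
      congr 1
    have e2 : (b : ℝ) * (b : ℝ) ^ dmost b α δ p = Real.exp ((dmost b α δ p + 1) * Real.log b) := by
      rw [← pow_succ', pow_exp hb]
      push_cast
      rfl
    rw [e1, e2, pow_exp hb]
    exact ⟨Real.exp_le_exp.2 h1, Real.exp_le_exp.2 h2.le⟩
  constructor
  · rw [tendsto_atTop]
    intro k
    have h2 : ∀ᶠ p : ℕ in atTop, ((k : ℝ) + 1) / c ≤ δ * p := hd.eventually_ge_atTop _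
    filter_upwards [hQ, h2] with p hq h2
    have hp := key p
    have hpos : 0 < b ^ dmost b α δ p := by positivity
    rw [Nat.le_div_iff_mul_le hpos]
    have h3 : ((k : ℝ) + 1) / c ≤ Real.exp (δ * p) :=
      h2.trans (by linarith [Real.add_one_le_exp (δ * p)])
    have h4 : (k : ℝ) * (b : ℝ) ^ dmost b α δ p ≤ Q p := by
      have h5 : (0 : ℝ) ≤ k := Nat.cast_nonneg k
      have h6 : (k : ℝ) ≤ c * Real.exp (δ * p) := by
        rw [div_le_iff₀ hc] at h3
        linarith
      calc (k : ℝ) * (b : ℝ) ^ dmost b α δ p ≤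
            (c * Real.exp (δ * p)) * (α ^ p * Real.exp (-(δ * p))) :=
            mul_le_mul h6 hp.1 (by positivity) (by positivity)
        _ = c * α ^ p * (Real.exp (δ * p) * Real.exp (-(δ * p))) := by ring
        _ = c * α ^ p := by rw [← Real.exp_add]; simp
        _ ≤ Q p := hq.1
    exact_mod_cast h4
  · have h2 : ∀ᶠ p : ℕ in atTop, |Real.log (b * C)| ≤ δ * p := hd.eventually_ge_atTop _
    filter_upwards [hQ, h2] with p hq h2
    have hp := key p
    have hposR : (0 : ℝ) < (b : ℝ) ^ dmost b α δ p := by positivity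
    rcases Nat.eq_zero_or_pos (Q p / b ^ dmost b α δ p) with h0 | h0
    · rw [h0, Nat.cast_zero, Real.log_zero]
      have := abs_nonneg (Real.log (b * C))
      linarith
    · have h3 : ((Q p / b ^ dmost b α δ p : ℕ) : ℝ) ≤ (Q p : ℝ) / (b : ℝ) ^ dmost b α δ p := by
        have := Nat.cast_div_le (m := Q p) (n := b ^ dmost b α δ p) (α := ℝ)
        push_cast at this
        exact this
      have h4 : (Q p : ℝ) / (b : ℝ) ^ dmost b α δ p ≤ (b * C) * Real.exp (δ * p) := by
        rw [div_le_iff₀ hposR]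
        calc (Q p : ℝ) ≤ C * α ^ p := hq.2
          _ = C * Real.exp (δ * p) * (α ^ p * Real.exp (-(δ * p))) := by
              have : Real.exp (δ * p) * Real.exp (-(δ * p)) = 1 := by
                rw [← Real.exp_add]; simp
              calc C * α ^ p = C * α ^ p * (Real.exp (δ * p) * Real.exp (-(δ * p))) := by
                    rw [this, mul_one]
                _ = _ := by ring
          _ ≤ C * Real.exp (δ * p) * (b * (b : ℝ) ^ dmost b α δ p) :=
              mul_le_mul_of_nonneg_left hp.2 (by positivity)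
          _ = _ := by ring
      have h5 : Real.log ((Q p / b ^ dmost b α δ p : ℕ) : ℝ) ≤
          Real.log ((b * C) * Real.exp (δ * p)) :=
        Real.log_le_log (by exact_mod_cast h0) (h3.trans h4)
      rw [Real.log_mul (by positivity) (Real.exp_pos _).ne', Real.log_exp] at h5
      have h6 := le_abs_self (Real.log (b * C))
      linarith

lemma pow_le_of_div {b : ℕ} (hb : 2 ≤ b) {Q m : ℕ → ℕ}
    (h : Tendsto (fun p => Q p / b ^ m p) atTop atTop) : ∀ᶠ p : ℕ in atTop, b ^ m p ≤ Q p := by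
  filter_upwards [h.eventually_ge_atTop 1] with p hp
  have hpos : 0 < b ^ m p := by positivity
  rw [Nat.le_div_iff_mul_le hpos, one_mul] at hp
  exact hp

end Pool.Agent.Y895.OL
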