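import Pool.Agent.Y895.OL.A5
import Pool.Agent.Y895.PM.G5

set_option autoImplicit false

/-!
# The order law for sequences of size `b ^ p` and digits in base `b`
-/

open Filter Topology MeasureTheory Finset
open scoped Real

namespace Pool.Agent.Y895.OL

/-- **The order law for digits in the base of growth.** -/
theorem ord_pm : ∃ δ : ℝ, 0 < δ ∧ δ < 1 ∧ ∀ b : ℕ, 2 ≤ b → ∃ c1 c2 : ℝ, 0 < c1 ∧ 0 < c2 ∧
    ∀ c C : ℝ, 0 < c → 0 < C → ∀ A m : ℕ → ℕ, (∀ᶠ p in atTop, m p ≤ m (p + 1)) →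
    (∀ᶠ p : ℕ in atTop, c * (b : ℝ) ^ p ≤ A p ∧ (A p : ℝ) ≤ C * (b : ℝ) ^ p ∧ b ^ m p ≤ A p ∧
      (1 - δ) * p ≤ m p) →
    ∀ S : Set ℕ, ∀ᵐ t : ℝ, 0 ≤ t → t < 1 →
      Ordr (fun p => A p + ⌊(b : ℝ) ^ m p * t⌋₊) c1 c2 S := by
  obtain ⟨δ, hδ, hδ1, h⟩ := ord_fb
  refine ⟨δ, hδ, hδ1, fun b hb => ?_⟩
  have hb1 : (1 : ℝ) < b := by exact_mod_cast (by omega : 1 < b)
  have hlb : 0 < Real.log b := Real.log_pos hb1
  obtain ⟨c1, c2, hc1, hc2, h⟩ := h b hb1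
  refine ⟨c1, c2, hc1, hc2, fun c C hc hC A m hm hA S => h b hb c C hc hC A m hm ?_ S⟩
  filter_upwards [hA] with p hp
  obtain ⟨h1, h2, h3, h4⟩ := hp
  refine ⟨h1, h2, h3, ?_⟩
  have := mul_le_mul_of_nonneg_right h4 hlb.le
  linarith

/-- **The order law for truncated sequences of size `b ^ p`.** -/
theorem ord_pm_trunc : ∃ δ : ℝ, 0 < δ ∧ δ < 1 ∧ ∀ b : ℕ, 2 ≤ b → ∃ c1 c2 : ℝ, 0 < c1 ∧ 0 < c2 ∧
    ∀ c C : ℝ, 0 < c → 0 < C → ∀ Q m : ℕ → ℕ,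
    (∀ᶠ p : ℕ in atTop, c * (b : ℝ) ^ p ≤ Q p ∧ (Q p : ℝ) ≤ C * (b : ℝ) ^ p) →
    (∀ᶠ p in atTop, m p ≤ m (p + 1)) → (∀ᶠ p in atTop, b ^ m p ≤ Q p) →
    (∀ᶠ p : ℕ in atTop, (1 - δ) * p ≤ m p) →
    ∀ S : Set ℕ, ∀ᵐ t : ℝ, 0 ≤ t → t < 1 →
      Ordr (fun p => b ^ m p * (Q p / b ^ m p) + ⌊(b : ℝ) ^ m p * t⌋₊) c1 c2 S := by
  obtain ⟨δ, hδ, hδ1, h⟩ := ord_trunc
  refine ⟨δ / 2, by positivity, by linarith, fun b hb => ?_⟩
  have hb1 : (1 : ℝ) < b := by exact_mod_cast (by omega : 1 < b)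
  have hb0 : (0 : ℝ) < b := by linarith
  have hlb : 0 < Real.log b := Real.log_pos hb1
  obtain ⟨c1, c2, hc1, hc2, h⟩ := h b hb1
  refine ⟨c1, c2, hc1, hc2, fun c C hc hC Q m hQ hm ht hk S =>
    h b hb c C hc hC Q m hQ hm ht ?_ S⟩
  have hk2 : ∀ᶠ p : ℕ in atTop, |Real.log C| / (δ / 2 * Real.log b) ≤ p :=
    tendsto_natCast_atTop_atTop.eventually_ge_atTop _
  filter_upwards [hQ, ht, hk, hk2] with p hp h1 h2 h3
  rw [div_le_iff₀ (by positivity)] at h3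
  have hpos : 0 < b ^ m p := by positivity
  have hposR : (0 : ℝ) < (b : ℝ) ^ m p := by positivity
  have hk1 : 1 ≤ Q p / b ^ m p := by
    rw [Nat.le_div_iff_mul_le hpos, one_mul]
    exact h1
  have hkR : (0 : ℝ) < (Q p / b ^ m p : ℕ) := by exact_mod_cast hk1
  have h5 : b ^ m p * (Q p / b ^ m p) ≤ Q p := Nat.mul_div_le _ _
  have h5' : (b : ℝ) ^ m p * (Q p / b ^ m p : ℕ) ≤ C * (b : ℝ) ^ p := by
    have : ((b ^ m p * (Q p / b ^ m p) : ℕ) : ℝ) ≤ Q p := by exact_mod_cast h5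
    push_cast at this
    exact this.trans hp.2
  have h6 := Real.log_le_log (by positivity) h5'
  rw [Real.log_mul hposR.ne' hkR.ne', Real.log_mul hC.ne' (by positivity), Real.log_pow,
    Real.log_pow] at h6
  have h7 := le_abs_self (Real.log C)
  have h8 := mul_le_mul_of_nonneg_right h2 hlb.le
  nlinarith

/-- the number of free digits when the first `⌊δ p⌋` digits are prescribed -/
noncomputable def dfree (δ : ℝ) (p : ℕ) : ℕ := p - ⌊δ * p⌋₊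

lemma dfree_mono {δ : ℝ} (hδ : 0 < δ) (hδ1 : δ < 1) (p : ℕ) : dfree δ p ≤ dfree δ (p + 1) := by
  have h1 : ⌊δ * ((p + 1 : ℕ) : ℝ)⌋₊ ≤ ⌊δ * p⌋₊ + 1 := by
    have h2 : δ * ((p + 1 : ℕ) : ℝ) ≤ δ * p + 1 := by push_cast; linarith
    refine (Nat.floor_mono h2).trans ?_
    rw [Nat.floor_add_one (by positivity)]
  unfold dfree
  omega

lemma dfree_spec {δ : ℝ} (hδ : 0 < δ) (hδ1 : δ < 1) :
    (∀ᶠ p : ℕ in atTop, 1 ≤ p ∧ dfree δ p ≤ p - 1 ∧ (1 - δ) * p ≤ dfree δ p) ∧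
      Tendsto (fun p => p - dfree δ p) atTop atTop := by
  have hle : ∀ p : ℕ, ⌊δ * p⌋₊ ≤ p := by
    intro p
    have h1 : δ * p ≤ p := by
      have : (0 : ℝ) ≤ p := Nat.cast_nonneg p
      nlinarith
    have := Nat.floor_mono h1
    rwa [Nat.floor_natCast] at this
  constructor
  · have h0 : ∀ᶠ p : ℕ in atTop, 1 / δ ≤ p := tendsto_natCast_atTop_atTop.eventually_ge_atTop _
    filter_upwards [h0, eventually_ge_atTop 1] with p h0 hp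
    rw [div_le_iff₀ hδ] at h0
    have h2 : 1 ≤ ⌊δ * p⌋₊ := by
      rw [Nat.one_le_floor_iff]
      linarith
    have h3 : (⌊δ * p⌋₊ : ℝ) ≤ δ * p := Nat.floor_le (by positivity)
    have h4 : ((dfree δ p : ℕ) : ℝ) = p - (⌊δ * p⌋₊ : ℝ) := by
      unfold dfree
      rw [Nat.cast_sub (hle p)]
    refine ⟨hp, by unfold dfree; omega, ?_⟩
    rw [h4]
    linarith
  · have h5 : Tendsto (fun p : ℕ => δ * (p : ℝ)) atTop atTop :=
      Tendsto.const_mul_atTop hδ tendsto_natCast_atTop_atTop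
    have h6 : Tendsto (fun p : ℕ => ⌊δ * (p : ℝ)⌋₊) atTop atTop := tendsto_nat_floor_atTop.comp h5
    refine h6.congr fun p => ?_
    have := hle p
    unfold dfree
    omega

end Pool.Agent.Y895.OL
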