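import Pool.Agent.Y895.OL.A6

set_option autoImplicit false

/-!
# A small lemma on truncated sequences
-/

open Filter Topology

namespace Pool.Agent.Y895.OL

lemma pow_le_of_tendsto {b : ℕ} (hb : 2 ≤ b) {c : ℝ} (hc : 0 < c) {Q m : ℕ → ℕ}
    (hQ : ∀ᶠ p : ℕ in atTop, c * (b : ℝ) ^ p ≤ Q p)
    (hm : Tendsto (fun p => p - m p) atTop atTop) : ∀ᶠ p : ℕ in atTop, b ^ m p ≤ Q p := by
  have hb1 : (1 : ℝ) < b := by exact_mod_cast (by omega : 1 < b)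
  have hb0 : (0 : ℝ) < b := by linarith
  obtain ⟨K, hK⟩ : ∃ K : ℕ, 1 / c ≤ (b : ℝ) ^ K := by
    obtain ⟨K, hK⟩ := pow_unbounded_of_one_lt (1 / c) hb1
    exact ⟨K, hK.le⟩
  filter_upwards [hQ, hm.eventually_ge_atTop (K + 1)] with p hp hK'
  have hmp : m p + K ≤ p := by omega
  have h1 : (b : ℝ) ^ m p * (1 / c) ≤ (b : ℝ) ^ p := by
    calc (b : ℝ) ^ m p * (1 / c) ≤ (b : ℝ) ^ m p * (b : ℝ) ^ K := by gcongr
      _ = (b : ℝ) ^ (m p + K) := (pow_add _ _ _).symm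
      _ ≤ (b : ℝ) ^ p := pow_le_pow_right₀ hb1.le hmp
  have h2 : (b : ℝ) ^ m p ≤ c * (b : ℝ) ^ p := by
    have e : (b : ℝ) ^ m p = c * ((b : ℝ) ^ m p * (1 / c)) := by field_simp
    rw [e]
    gcongr
  have h3 : ((b ^ m p : ℕ) : ℝ) ≤ Q p := by
    push_cast
    linarith
  exact_mod_cast h3

end Pool.Agent.Y895.OL
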