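import Mathlib
import Pool.Agent.TH888.R.Dich

set_option autoImplicit false

/-!
# Events with local means: the abstract law and the order law
-/

namespace Pool.Agent.Y895.OL

open Finset Filter Topology MeasureTheory
open Pool.Agent.W66S (moment_rows)
open Pool.Agent.TH888.R (gr blocks one_le_gr gr_mono gr_small)

variable {Ω : Type*} [MeasurableSpace Ω]

/-- `f q` is the indicator of the `q`-th event, `m q` its local mean, `w q` the size of the local
mean; the row sums of the correlation matrix are at most a constant times `w q * lam q`. -/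
structure Row (μ : Measure Ω) (f m : ℕ → Ω → ℝ) (I : Set ℕ) (w lam : ℕ → ℝ) (P : ℕ) : Prop where
  fm : ∀ q, Measurable (f q)
  mm : ∀ q, Measurable (m q)
  f01 : ∀ q x, f q x = 0 ∨ f q x = 1
  m0 : ∀ q x, 0 ≤ m q x
  m1 : ∀ q x, m q x ≤ 1
  w0 : ∀ q, 0 ≤ w q
  w1 : ∀ q, w q ≤ 1
  lam1 : ∀ q, 1 ≤ lam q
  wB : ∃ B0 : ℝ, 0 ≤ B0 ∧ ∀ q, q ∈ I → w q * lam q ≤ B0
  up : ∃ K : ℝ, 0 ≤ K ∧ ∀ᵐ x ∂μ, ∀ q ≥ P, q ∈ I → m q x ≤ K * w q
  row : ∃ C : ℝ, 0 < C ∧ (∀ q ≥ P, q ∈ I → ∫ x, (f q x - m q x) ^ 2 ∂μ ≤ C * (w q * lam q)) ∧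
    ∀ q ≥ P, q ∈ I → ∀ T : Finset ℕ, (∀ p ∈ T, p ∈ I ∧ P ≤ p ∧ p < q) →
      ∑ p ∈ T, |∫ x, (f p x - m p x) * (f q x - m q x) ∂μ| ≤ C * (w q * lam q)

section

variable {μ : Measure Ω} [IsFiniteMeasure μ] {f m : ℕ → Ω → ℝ} {I : Set ℕ} {w lam : ℕ → ℝ} {P : ℕ}

lemma Row.f0 (h : Row μ f m I w lam P) (q : ℕ) (x : Ω) : 0 ≤ f q x := by
  rcases h.f01 q x with h1 | h1 <;> rw [h1]; norm_num

lemma Row.f1 (h : Row μ f m I w lam P) (q : ℕ) (x : Ω) : f q x ≤ 1 := by
  rcases h.f01 q x with h1 | h1 <;> rw [h1]; norm_num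

lemma Row.hb (h : Row μ f m I w lam P) (q : ℕ) (x : Ω) : |f q x - m q x| ≤ 1 := by
  rw [abs_le]
  constructor <;> linarith [h.f0 q x, h.f1 q x, h.m0 q x, h.m1 q x]

open Classical in
/-- the sum of the weights of the indices `q ≤ n` in `S` -/
noncomputable def VI (I : Set ℕ) (w : ℕ → ℝ) (S : Set ℕ) (n : ℕ) : ℝ :=
  ∑ q ∈ range (n + 1), if q ∈ S ∧ q ∈ I then w q else 0

open Classical in
/-- the number of the events with index `q ≤ n` in `S` -/
noncomputable def FI (I : Set ℕ) (f : ℕ → Ω → ℝ) (S : Set ℕ) (n : ℕ) (x : Ω) : ℝ :=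
  ∑ q ∈ range (n + 1), if q ∈ S ∧ q ∈ I then f q x else 0

lemma VI_mono (hw : ∀ q, 0 ≤ w q) (S : Set ℕ) : Monotone (VI I w S) := by
  intro a b hab
  unfold VI
  refine Finset.sum_le_sum_of_subset_of_nonneg (Finset.range_mono (by omega)) fun q _ _ => ?_
  split_ifs
  · exact hw q
  · exact le_rfl

lemma VI_nonneg (hw : ∀ q, 0 ≤ w q) (S : Set ℕ) (n : ℕ) : 0 ≤ VI I w S n := by
  unfold VI
  refine Finset.sum_nonneg fun q _ => ?_
  split_ifs
  · exact hw q
  · exact le_rfl

open Classical in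
/-- the tail sum compared with the full sum -/
lemma VI_tail (hw : ∀ q, 0 ≤ w q) (hw1 : ∀ q, w q ≤ 1) (S : Set ℕ) (P n : ℕ) :
    VI I w S n - P ≤ (∑ q ∈ range (n + 1), if q ∈ S ∧ q ∈ I ∧ P ≤ q then w q else 0) ∧
      (∑ q ∈ range (n + 1), if q ∈ S ∧ q ∈ I ∧ P ≤ q then w q else 0) ≤ VI I w S n := by
  constructor
  · unfold VI
    have h1 : ∑ q ∈ range (n + 1), (if q ∈ S ∧ q ∈ I then w q else 0) ≤
        ∑ q ∈ range (n + 1), ((if q ∈ S ∧ q ∈ I ∧ P ≤ q then w q else 0) +
          if q < P then (1 : ℝ) else 0) := by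
      refine Finset.sum_le_sum fun q _ => ?_
      have hwq := hw q
      have hw1q := hw1 q
      by_cases hq : q ∈ S ∧ q ∈ I
      · rw [if_pos hq]
        by_cases hP : P ≤ q
        · rw [if_pos ⟨hq.1, hq.2, hP⟩, if_neg (by omega)]
          linarith
        · rw [if_neg (fun h => hP h.2.2), if_pos (by omega)]
          linarith
      · rw [if_neg hq, if_neg (fun h => hq ⟨h.1, h.2.1⟩)]
        split_ifs <;> norm_num
    have h2 : ∑ q ∈ range (n + 1), (if q < P then (1 : ℝ) else 0) ≤ P := by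
      rw [Finset.sum_ite, Finset.sum_const_zero, add_zero, Finset.sum_const, nsmul_eq_mul, mul_one]
      have : ((range (n + 1)).filter (fun q => q < P)).card ≤ P := by
        calc _ ≤ (range P).card := Finset.card_le_card fun q hq => by
                rw [mem_filter] at hq
                exact mem_range.2 hq.2
          _ = P := Finset.card_range P
      exact_mod_cast this
    rw [Finset.sum_add_distrib] at h1
    linarith
  · unfold VI
    refine Finset.sum_le_sum fun q _ => ?_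
    by_cases hq : q ∈ S ∧ q ∈ I ∧ P ≤ q
    · rw [if_pos hq, if_pos ⟨hq.1, hq.2.1⟩]
    · rw [if_neg hq]
      split_ifs
      · exact hw q
      · exact le_rfl

open Classical in
lemma div_tail' (hw : ∀ q, 0 ≤ w q) (hw1 : ∀ q, w q ≤ 1) {S : Set ℕ}
    (hdiv : Tendsto (VI I w S) atTop atTop) (P : ℕ) (hl1 : ∀ q, 1 ≤ lam q) :
    Tendsto (fun n => ∑ q ∈ range n, if q ∈ S ∧ q ∈ I ∧ P ≤ q then w q * lam q else 0)
      atTop atTop := by
  rw [← tendsto_add_atTop_iff_nat 1]
  refine tendsto_atTop_mono (fun n => ?_) (tendsto_atTop_add_const_right _ (-(P : ℝ)) hdiv)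
  have h1 := (VI_tail (I := I) hw hw1 S P n).1
  have h2 : (∑ q ∈ range (n + 1), if q ∈ S ∧ q ∈ I ∧ P ≤ q then w q else 0) ≤
      ∑ q ∈ range (n + 1), if q ∈ S ∧ q ∈ I ∧ P ≤ q then w q * lam q else 0 := by
    refine Finset.sum_le_sum fun q _ => ?_
    split_ifs
    · have := hl1 q
      have := hw q
      nlinarith
    · exact le_rfl
  linarith

open Classical in
/-- **The law with error term.** -/
theorem Row.law (h : Row μ f m I w lam P) (S : Set ℕ) (hdiv : Tendsto (VI I w S) atTop atTop) :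
    ∀ᵐ x ∂μ, ∃ B : ℝ, 0 ≤ B ∧ ∀ n : ℕ,
      |∑ q ∈ range n, (if q ∈ S ∧ q ∈ I ∧ P ≤ q then f q x - m q x else 0)| ≤
      B * gr (∑ q ∈ range n, if q ∈ S ∧ q ∈ I ∧ P ≤ q then w q * lam q else 0) := by
  obtain ⟨Km, hKm, hmK⟩ := h.up
  obtain ⟨C, hC, hdiag, hrow⟩ := h.row
  obtain ⟨B0, hB0, hB⟩ := h.wB
  set cd : ℕ → Prop := fun q => q ∈ S ∧ q ∈ I ∧ P ≤ q with hcd
  have hl0 : ∀ q, 0 ≤ lam q := fun q => by linarith [h.lam1 q]
  have key := blocks (μ := μ) (f := fun q x => if cd q then f q x else 0)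
    (m := fun q x => if cd q then m q x else 0) (φ := fun q => if cd q then w q * lam q else 0)
    (B0 := B0) (K := Km) (C := 3 * C)
    (fun q => by
      split_ifs
      · exact mul_nonneg (h.w0 q) (hl0 q)
      · exact le_rfl)
    (fun q => by
      split_ifs with hq
      · exact hB q hq.2.1
      · exact hB0)
    (div_tail' h.w0 h.w1 hdiv P h.lam1) hKm (by positivity)
    (fun q => by
      by_cases hq : cd q
      · simp only [if_pos hq]; exact h.fm q
      · simp only [if_neg hq]; exact measurable_const)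
    (fun q => by
      by_cases hq : cd q
      · simp only [if_pos hq]; exact h.mm q
      · simp only [if_neg hq]; exact measurable_const)
    (fun q x => by
      split_ifs
      · exact h.f0 q x
      · exact le_rfl)
    (fun q x => by
      split_ifs
      · exact h.m0 q x
      · exact le_rfl)
    (fun q x => by
      split_ifs
      · exact h.hb q x
      · norm_num)
    (by
      filter_upwards [hmK] with x hx q
      split_ifs with hq
      · refine (hx q hq.2.2 hq.2.1).trans ?_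
        refine mul_le_mul_of_nonneg_left ?_ hKm
        nlinarith [h.w0 q, h.lam1 q]
      · rw [mul_zero])
    (by
      intro a b hab
      set T := (Ico a b).filter cd with hT
      have e1 : ∀ x, ∑ q ∈ Ico a b, ((if cd q then f q x else 0) - if cd q then m q x else 0) =
          ∑ q ∈ T, (f q x - m q x) := by
        intro x
        rw [hT, Finset.sum_filter]
        refine Finset.sum_congr rfl fun q _ => ?_
        split_ifs
        · rfl
        · norm_num
      have e2 : ∑ q ∈ Ico a b, (if cd q then w q * lam q else 0) = ∑ q ∈ T, w q * lam q := by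
        rw [hT, Finset.sum_filter]
      simp only [e1, e2]
      have hGm : ∀ q, Measurable (fun x => f q x - m q x) := fun q => (h.fm q).sub (h.mm q)
      refine (moment_rows (μ := μ) (G := fun q x => f q x - m q x) hGm h.hb T).trans ?_
      rw [Finset.mul_sum]
      refine Finset.sum_le_sum fun q hq => ?_
      rw [hT, mem_filter] at hq
      have hqc := hq.2
      have h1 := hdiag q hqc.2.2 hqc.2.1
      have h2 := hrow q hqc.2.2 hqc.2.1 (T.filter (fun p => p < q)) (by
        intro p hp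
        rw [mem_filter, hT, mem_filter] at hp
        exact ⟨hp.1.2.2.1, hp.1.2.2.2, hp.2⟩)
      linarith)
  filter_upwards [key] with x hx
  obtain ⟨B, hB1, hB2⟩ := hx
  refine ⟨B, hB1, fun n => ?_⟩
  have := hB2 n
  refine le_trans (le_of_eq ?_) this
  congr 1
  refine Finset.sum_congr rfl fun q _ => ?_
  simp only [hcd]
  split_ifs
  · rfl
  · norm_num

open Classical in
/-- counting function and its tail -/
lemma FI_tail (hf0 : ∀ q x, 0 ≤ f q x) (hf1 : ∀ q x, f q x ≤ 1) (S : Set ℕ) (P n : ℕ) (x : Ω) :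
    FI I f S n x - P ≤ (∑ q ∈ range (n + 1), if q ∈ S ∧ q ∈ I ∧ P ≤ q then f q x else 0) ∧
      (∑ q ∈ range (n + 1), if q ∈ S ∧ q ∈ I ∧ P ≤ q then f q x else 0) ≤ FI I f S n x :=
  VI_tail (I := I) (w := fun q => f q x) (fun q => hf0 q x) (fun q => hf1 q x) S P n

open Classical in
/-- **The order law.** -/
theorem Row.order (h : Row μ f m I w (fun _ => 1) P) {c0 K : ℝ} (hc0 : 0 < c0) (hK : 0 < K)
    (hlo : ∀ᵐ x ∂μ, ∀ q ≥ P, q ∈ I → c0 * w q ≤ m q x)
    (hup : ∀ᵐ x ∂μ, ∀ q ≥ P, q ∈ I → m q x ≤ K * w q)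
    (S : Set ℕ) (hdiv : Tendsto (VI I w S) atTop atTop) :
    ∀ᵐ x ∂μ, ∀ᶠ n : ℕ in atTop, c0 / 2 * VI I w S n ≤ FI I f S n x ∧
      FI I f S n x ≤ 2 * K * VI I w S n := by
  have key := h.law S hdiv
  filter_upwards [key, hlo, hup] with x hx hl hu
  obtain ⟨B, hB, hBn⟩ := hx
  have h1 := hdiv.eventually (gr_small (A := B) (ε := c0 / 4) hB (by positivity))
  have h2 := hdiv.eventually (gr_small (A := B) (ε := K / 2) hB (by positivity))
  have h3 := hdiv.eventually (eventually_ge_atTop (4 * (P : ℝ) + 2 * P / K))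
  filter_upwards [h1, h2, h3] with n g1 g2 g3
  set V := VI I w S n with hV
  have hV0 : 0 ≤ V := VI_nonneg h.w0 S n
  obtain ⟨a1, a2⟩ := VI_tail (I := I) h.w0 h.w1 S P n
  obtain ⟨b1, b2⟩ := FI_tail (I := I) h.f0 h.f1 S P n x
  have key2 := hBn (n + 1)
  simp only [mul_one] at key2
  set V' := ∑ q ∈ range (n + 1), (if q ∈ S ∧ q ∈ I ∧ P ≤ q then w q else 0) with hV'
  set F' := ∑ q ∈ range (n + 1), (if q ∈ S ∧ q ∈ I ∧ P ≤ q then f q x else 0) with hF'
  have hV'0 : 0 ≤ V' := Finset.sum_nonneg fun q _ => by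
    split_ifs
    · exact h.w0 q
    · exact le_rfl
  have e1 : ∑ q ∈ range (n + 1), (if q ∈ S ∧ q ∈ I ∧ P ≤ q then f q x - m q x else 0) =
      F' - ∑ q ∈ range (n + 1), (if q ∈ S ∧ q ∈ I ∧ P ≤ q then m q x else 0) := by
    rw [hF', ← Finset.sum_sub_distrib]
    refine Finset.sum_congr rfl fun q _ => ?_
    split_ifs
    · rfl
    · norm_num
  rw [e1] at key2
  set M' := ∑ q ∈ range (n + 1), (if q ∈ S ∧ q ∈ I ∧ P ≤ q then m q x else 0) with hM'
  have hM1 : c0 * V' ≤ M' := by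
    rw [hV', hM', Finset.mul_sum]
    refine Finset.sum_le_sum fun q _ => ?_
    split_ifs with hq
    · exact hl q hq.2.2 hq.2.1
    · rw [mul_zero]
  have hM2 : M' ≤ K * V' := by
    rw [hV', hM', Finset.mul_sum]
    refine Finset.sum_le_sum fun q _ => ?_
    split_ifs with hq
    · exact hu q hq.2.2 hq.2.1
    · rw [mul_zero]
  have hg : B * gr V' ≤ B * gr V := mul_le_mul_of_nonneg_left (gr_mono hV'0 a2) hB
  obtain ⟨k1, k2⟩ := abs_le.1 key2
  have hP0 : (0 : ℝ) ≤ P := Nat.cast_nonneg P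
  have hPK : 0 ≤ 2 * (P : ℝ) / K := by positivity
  constructor
  · have : c0 * (V - P) ≤ c0 * V' := mul_le_mul_of_nonneg_left (by linarith) hc0.le
    have h5 : 4 * (P : ℝ) ≤ V := by linarith
    have h6 : c0 * (4 * P) ≤ c0 * V := mul_le_mul_of_nonneg_left h5 hc0.le
    linarith
  · have h5 : 2 * (P : ℝ) / K ≤ V := by linarith
    have h6 : 2 * (P : ℝ) ≤ K * V := by
      rw [div_le_iff₀ hK] at h5
      linarith
    have h7 : K * V' ≤ K * V := mul_le_mul_of_nonneg_left a2 hK.le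
    linarith

open Classical in
/-- **The convergent case.** -/
theorem fin_of_conv (hfm : ∀ q, Measurable (f q)) (hf0 : ∀ q x, 0 ≤ f q x) (hf1 : ∀ q x, f q x ≤ 1)
    (hw : ∀ q, 0 ≤ w q) {K : ℝ} (hK : 0 ≤ K) (hone : ∀ q ≥ P, q ∈ I → ∫ x, f q x ∂μ ≤ K * w q)
    (S : Set ℕ) (hdiv : ¬ Tendsto (VI I w S) atTop atTop) :
    ∀ᵐ x ∂μ, {q : ℕ | q ∈ S ∧ q ∈ I ∧ f q x = 1}.Finite := by
  set a : ℕ → ℝ := fun q => if q ∈ S ∧ q ∈ I then w q else 0 with ha
  have ha0 : ∀ q, 0 ≤ a q := by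
    intro q
    simp only [ha]
    split_ifs
    · exact hw q
    · exact le_rfl
  have hsum : Summable a := by
    rcases tendsto_atTop_of_monotone (VI_mono (I := I) hw S) with h1 | ⟨l, hl⟩
    · exact absurd h1 hdiv
    · refine summable_of_sum_range_le (c := l) ha0 fun n => ?_
      have h2 : VI I w S n ≤ l := (VI_mono hw _).ge_of_tendsto hl n
      refine le_trans ?_ h2
      unfold VI
      refine Finset.sum_le_sum_of_subset_of_nonneg (Finset.range_mono (by omega)) fun q _ _ => ?_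
      exact ha0 q
  set s : ℕ → Set Ω := fun q => {x | q ∈ S ∧ q ∈ I ∧ P ≤ q ∧ f q x = 1} with hs
  have hsm : ∀ q, μ (s q) ≤ ENNReal.ofReal (K * a q) := by
    intro q
    by_cases hq : q ∈ S ∧ q ∈ I ∧ P ≤ q
    · have h1 : μ (s q) ≤ ∫⁻ x, ENNReal.ofReal (f q x) ∂μ := by
        have h2 := mul_meas_ge_le_lintegral (μ := μ) (f := fun x => ENNReal.ofReal (f q x))
          (hfm q).ennreal_ofReal 1
        rw [one_mul] at h2
        refine le_trans (measure_mono ?_) h2
        intro x hx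
        simp only [hs, Set.mem_ofPred_eq] at hx
        show 1 ≤ ENNReal.ofReal (f q x)
        rw [hx.2.2.2]
        simp
      have hint : Integrable (f q) μ := by
        refine Integrable.of_bound (hfm q).aestronglyMeasurable 1 (Eventually.of_forall fun x => ?_)
        rw [Real.norm_of_nonneg (hf0 q x)]
        exact hf1 q x
      rw [← ofReal_integral_eq_lintegral_ofReal hint (Eventually.of_forall (hf0 q))] at h1
      refine h1.trans (ENNReal.ofReal_le_ofReal ?_)
      have h3 := hone q hq.2.2 hq.2.1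
      simp only [ha]
      rw [if_pos ⟨hq.1, hq.2.1⟩]
      exact h3
    · have : s q = ∅ := by
        ext x
        simp only [hs, Set.mem_ofPred_eq, Set.mem_empty_iff_false, iff_false]
        exact fun h => hq ⟨h.1, h.2.1, h.2.2.1⟩
      rw [this, measure_empty]
      simp
  have htsum : ∑' q, μ (s q) ≠ ⊤ := by
    have h1 : ∑' q, μ (s q) ≤ ∑' q, ENNReal.ofReal (K * a q) := ENNReal.tsum_le_tsum hsm
    have h2 : Summable fun q => K * a q := hsum.mul_left K
    rw [← ENNReal.ofReal_tsum_of_nonneg (fun q => mul_nonneg hK (ha0 q)) h2] at h1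
    exact ne_top_of_le_ne_top ENNReal.ofReal_ne_top h1
  filter_upwards [ae_eventually_notMem htsum] with x hx
  obtain ⟨N, hN⟩ := hx.exists_forall_of_atTop
  refine (Set.finite_lt_nat (N + P)).subset fun q hq => ?_
  obtain ⟨h1, h2, h3⟩ := hq
  show q < N + P
  by_contra h4
  exact hN q (by omega) ⟨h1, h2, by omega, h3⟩

end

end Pool.Agent.Y895.OL
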