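import Pool.Agent.Y895.OL.A1
import Pool.Agent.Y895.PM.G3a

set_option autoImplicit false

/-!
# Random lower digits: local means given the first digits, and exact independence of far pairs
-/

namespace Pool.Agent.Y895.OL

open Finset Filter Topology MeasureTheory
open Pool.Agent.Y895.PM (U01 avg corr floor_meas floor_div sum_blocks U01_univ)

lemma floor_lt_pow {b : ℕ} (hb : 2 ≤ b) (n : ℕ) {t : ℝ} (h1 : t < 1) :
    ⌊(b : ℝ) ^ n * t⌋₊ < b ^ n := by
  have hb0 : (0 : ℝ) < (b : ℝ) ^ n := by positivity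
  rw [Nat.floor_lt' (by positivity)]
  push_cast
  nlinarith

lemma ae_U01 {p : ℝ → Prop} (h : ∀ t, 0 ≤ t → t < 1 → p t) : ∀ᵐ t ∂U01, p t := by
  unfold U01
  rw [ae_restrict_iff' measurableSet_Ico]
  exact Eventually.of_forall fun t ht => h t ht.1 ht.2

/-- count over a block of consecutive integers -/
noncomputable def cg (g : ℕ → ℝ) (B L : ℕ) : ℝ := ∑ D ∈ range L, g (B + D)

/-- the event attached to `q` -/
noncomputable def gF (g : ℕ → ℕ → ℝ) (b : ℕ) (A m : ℕ → ℕ) (q : ℕ) (t : ℝ) : ℝ :=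
  g q (A q + ⌊(b : ℝ) ^ m q * t⌋₊)

/-- the local mean: the conditional expectation given the first `l q` digits of `t` -/
noncomputable def gM (g : ℕ → ℕ → ℝ) (b : ℕ) (A m l : ℕ → ℕ) (q : ℕ) (t : ℝ) : ℝ :=
  ((b : ℝ) ^ (m q - l q))⁻¹ *
    cg (g q) (A q + b ^ (m q - l q) * ⌊(b : ℝ) ^ l q * t⌋₊) (b ^ (m q - l q))

section

variable {g : ℕ → ℕ → ℝ} {b : ℕ}

lemma cg_nonneg {g : ℕ → ℝ} (hg : ∀ n, g n = 0 ∨ g n = 1) (B L : ℕ) : 0 ≤ cg g B L :=
  Finset.sum_nonneg fun D _ => by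
    rcases hg (B + D) with h | h <;> rw [h]
    norm_num

lemma cg_le {g : ℕ → ℝ} (hg : ∀ n, g n = 0 ∨ g n = 1) (B L : ℕ) : cg g B L ≤ L := by
  unfold cg
  calc ∑ D ∈ range L, g (B + D) ≤ ∑ D ∈ range L, (1 : ℝ) :=
        Finset.sum_le_sum fun D _ => by
          rcases hg (B + D) with h | h <;> rw [h]
          norm_num
    _ = L := by simp

lemma ms_nonneg {g : ℕ → ℝ} (hg : ∀ n, g n = 0 ∨ g n = 1) (b h B : ℕ) :
    0 ≤ ((b : ℝ) ^ h)⁻¹ * cg g B (b ^ h) := mul_nonneg (by positivity) (cg_nonneg hg _ _)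

lemma ms_le_one {g : ℕ → ℝ} (hg : ∀ n, g n = 0 ∨ g n = 1) (hb : 2 ≤ b) (h B : ℕ) :
    ((b : ℝ) ^ h)⁻¹ * cg g B (b ^ h) ≤ 1 := by
  have hb0 : (0 : ℝ) < b := by positivity
  have h1 := cg_le hg B (b ^ h)
  push_cast at h1
  rw [inv_mul_eq_div, div_le_one (by positivity)]
  exact h1

lemma ms_abs {g : ℕ → ℝ} (hg : ∀ n, g n = 0 ∨ g n = 1) (hb : 2 ≤ b) (h B n : ℕ) :
    |g n - ((b : ℝ) ^ h)⁻¹ * cg g B (b ^ h)| ≤ 1 := by
  have h1 := ms_nonneg hg b h B
  have h2 := ms_le_one hg hb h B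
  rw [abs_le]
  rcases hg n with h3 | h3 <;> rw [h3] <;> constructor <;> linarith

lemma gF01 (hg : ∀ q n, g q n = 0 ∨ g q n = 1) (b : ℕ) (A m : ℕ → ℕ) (q : ℕ) (t : ℝ) :
    gF g b A m q t = 0 ∨ gF g b A m q t = 1 := hg _ _

lemma gF_nonneg (hg : ∀ q n, g q n = 0 ∨ g q n = 1) (b : ℕ) (A m : ℕ → ℕ) (q : ℕ) (t : ℝ) :
    0 ≤ gF g b A m q t := by
  rcases gF01 hg b A m q t with h | h <;> rw [h]
  norm_num

lemma gF_le_one (hg : ∀ q n, g q n = 0 ∨ g q n = 1) (b : ℕ) (A m : ℕ → ℕ) (q : ℕ) (t : ℝ) :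
    gF g b A m q t ≤ 1 := by
  rcases gF01 hg b A m q t with h | h <;> rw [h]
  norm_num

lemma gF_meas (g : ℕ → ℕ → ℝ) (b : ℕ) (A m : ℕ → ℕ) (q : ℕ) : Measurable (gF g b A m q) :=
  floor_meas b (fun D => g q (A q + D)) (m q)

lemma gM_meas (g : ℕ → ℕ → ℝ) (b : ℕ) (A m l : ℕ → ℕ) (q : ℕ) : Measurable (gM g b A m l q) :=
  floor_meas b (fun n => ((b : ℝ) ^ (m q - l q))⁻¹ *
    cg (g q) (A q + b ^ (m q - l q) * n) (b ^ (m q - l q))) (l q)

lemma gM_nonneg (hg : ∀ q n, g q n = 0 ∨ g q n = 1) (b : ℕ) (A m l : ℕ → ℕ) (q : ℕ) (t : ℝ) :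
    0 ≤ gM g b A m l q t := ms_nonneg (hg q) _ _ _

lemma gM_le_one (hg : ∀ q n, g q n = 0 ∨ g q n = 1) (hb : 2 ≤ b) (A m l : ℕ → ℕ) (q : ℕ) (t : ℝ) :
    gM g b A m l q t ≤ 1 := ms_le_one (hg q) hb _ _

lemma bdd_int {F : ℝ → ℝ} (hF : Measurable F) (h0 : ∀ t, 0 ≤ F t) (h1 : ∀ t, F t ≤ 1) :
    Integrable F U01 := by
  refine Integrable.of_bound hF.aestronglyMeasurable 1 (Eventually.of_forall fun x => ?_)
  rw [Real.norm_of_nonneg (h0 x)]
  exact h1 x

/-- **Far pairs are uncorrelated.** -/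
lemma far_zero (hg : ∀ q n, g q n = 0 ∨ g q n = 1) (hb : 2 ≤ b) (A m l : ℕ → ℕ) {p q : ℕ}
    (hp : l p ≤ m p) (hq : l q ≤ m q) (hpq : m p ≤ l q) :
    ∫ t, (gF g b A m p t - gM g b A m l p t) * (gF g b A m q t - gM g b A m l q t) ∂U01 = 0 := by
  set h := m q - l q with hh
  have hbh : 0 < b ^ h := by positivity
  have hbhR : (0 : ℝ) < (b : ℝ) ^ h := by positivity
  set F : ℕ → ℝ := fun k => g p (A p + k / b ^ (l q - m p)) - ((b : ℝ) ^ (m p - l p))⁻¹ *
    cg (g p) (A p + b ^ (m p - l p) * (k / b ^ (l q - l p))) (b ^ (m p - l p)) with hF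
  set G : ℕ → ℝ := fun n => g q (A q + n) - ((b : ℝ) ^ h)⁻¹ *
    cg (g q) (A q + b ^ h * (n / b ^ h)) (b ^ h) with hG
  have e : ∀ t : ℝ, (gF g b A m p t - gM g b A m l p t) * (gF g b A m q t - gM g b A m l q t) =
      F ⌊(b : ℝ) ^ l q * t⌋₊ * G ⌊(b : ℝ) ^ (h + l q) * t⌋₊ := by
    intro t
    have e1 : ⌊(b : ℝ) ^ m p * t⌋₊ = ⌊(b : ℝ) ^ l q * t⌋₊ / b ^ (l q - m p) := by
      have := floor_div hb (m p) (l q - m p) t
      rw [Nat.sub_add_cancel hpq] at this
      exact this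
    have e2 : ⌊(b : ℝ) ^ l p * t⌋₊ = ⌊(b : ℝ) ^ l q * t⌋₊ / b ^ (l q - l p) := by
      have := floor_div hb (l p) (l q - l p) t
      rw [Nat.sub_add_cancel (hp.trans hpq)] at this
      exact this
    have e3 : ⌊(b : ℝ) ^ l q * t⌋₊ = ⌊(b : ℝ) ^ (h + l q) * t⌋₊ / b ^ h := floor_div hb (l q) h t
    have e4 : h + l q = m q := by omega
    simp only [hF, hG]
    rw [← e3, ← e1, ← e2, e4]
    rfl
  simp only [e]
  rw [corr hb (F := F) (G := G) (fun n => ms_abs (hg p) hb _ _ _) (fun n => ms_abs (hg q) hb _ _ _)]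
  have e5 : ∀ k ∈ range (b ^ l q), ∑ r ∈ range (b ^ h), F k * G (b ^ h * k + r) = 0 := by
    intro k _
    rw [← Finset.mul_sum]
    have e6 : ∑ r ∈ range (b ^ h), G (b ^ h * k + r) = 0 := by
      have e7 : ∀ r ∈ range (b ^ h), G (b ^ h * k + r) = g q (A q + b ^ h * k + r) -
          ((b : ℝ) ^ h)⁻¹ * cg (g q) (A q + b ^ h * k) (b ^ h) := by
        intro r hr
        rw [mem_range] at hr
        have h2 : (b ^ h * k + r) / b ^ h = k := by
          rw [Nat.mul_add_div hbh, Nat.div_eq_of_lt hr, add_zero]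
        simp only [hG]
        rw [h2, add_assoc]
      rw [Finset.sum_congr rfl e7, Finset.sum_sub_distrib, Finset.sum_const, card_range,
        nsmul_eq_mul]
      push_cast
      rw [← mul_assoc, mul_inv_cancel₀ hbhR.ne', one_mul]
      unfold cg
      exact sub_self _
    rw [e6, mul_zero]
  rw [Finset.sum_eq_zero e5, mul_zero]

/-- near pairs -/
lemma near_le (hg : ∀ q n, g q n = 0 ∨ g q n = 1) (hb : 2 ≤ b) (A m l : ℕ → ℕ) {p q : ℕ}
    {x y : ℝ} (hx : 0 ≤ x) (hy : 0 ≤ y)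
    (hp : ∀ᵐ t ∂U01, gM g b A m l p t ≤ x) (hq : ∀ᵐ t ∂U01, gM g b A m l q t ≤ y)
    (hp1 : ∫ t, gF g b A m p t ∂U01 ≤ x) (hq1 : ∫ t, gF g b A m q t ∂U01 ≤ y) :
    |∫ t, (gF g b A m p t - gM g b A m l p t) * (gF g b A m q t - gM g b A m l q t) ∂U01| ≤
      (∫ t, gF g b A m p t * gF g b A m q t ∂U01) + 3 * (x * y) := by
  have i1 : Integrable (gF g b A m p) U01 := bdd_int (gF_meas g b A m p)
    (gF_nonneg hg b A m p) (gF_le_one hg b A m p)
  have i2 : Integrable (gF g b A m q) U01 := bdd_int (gF_meas g b A m q)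
    (gF_nonneg hg b A m q) (gF_le_one hg b A m q)
  have i3 : Integrable (fun t => gF g b A m p t * gF g b A m q t) U01 :=
    bdd_int ((gF_meas g b A m p).mul (gF_meas g b A m q))
      (fun t => mul_nonneg (gF_nonneg hg b A m p t) (gF_nonneg hg b A m q t))
      (fun t => mul_le_one₀ (gF_le_one hg b A m p t) (gF_nonneg hg b A m q t)
        (gF_le_one hg b A m q t))
  have h1 : |∫ t, (gF g b A m p t - gM g b A m l p t) * (gF g b A m q t - gM g b A m l q t) ∂U01| ≤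
      ∫ t, |(gF g b A m p t - gM g b A m l p t) * (gF g b A m q t - gM g b A m l q t)| ∂U01 :=
    abs_integral_le_integral_abs
  refine h1.trans ?_
  have h2 : ∫ t, |(gF g b A m p t - gM g b A m l p t) * (gF g b A m q t - gM g b A m l q t)| ∂U01 ≤
      ∫ t, (gF g b A m p t * gF g b A m q t + (x * gF g b A m q t + y * gF g b A m p t + x * y))
        ∂U01 := by
    apply integral_mono_ae
    · refine Integrable.of_bound ((((gF_meas g b A m p).sub (gM_meas g b A m l p)).mul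
        ((gF_meas g b A m q).sub (gM_meas g b A m l q))).abs).aestronglyMeasurable 1
        (Eventually.of_forall fun t => ?_)
      rw [Real.norm_eq_abs, abs_abs, abs_mul]
      exact mul_le_one₀ (ms_abs (hg p) hb _ _ _) (abs_nonneg _) (ms_abs (hg q) hb _ _ _)
    · exact i3.add (((i2.const_mul x).add (i1.const_mul y)).add (integrable_const _))
    · filter_upwards [hp, hq] with t ht1 ht2
      have a1 := gF_nonneg hg b A m p t
      have a2 := gF_nonneg hg b A m q t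
      have a3 := gM_nonneg hg b A m l p t
      have a4 := gM_nonneg hg b A m l q t
      have b1 := mul_nonneg a1 a2
      have b2 := mul_nonneg a3 a4
      have b3 := mul_nonneg a1 a4
      have b4 := mul_nonneg a3 a2
      have c1 : gM g b A m l p t * gM g b A m l q t ≤ x * y := mul_le_mul ht1 ht2 a4 hx
      have c2 : gF g b A m p t * gM g b A m l q t ≤ y * gF g b A m p t := by
        rw [mul_comm y]
        exact mul_le_mul_of_nonneg_left ht2 a1
      have c3 : gM g b A m l p t * gF g b A m q t ≤ x * gF g b A m q t :=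
        mul_le_mul_of_nonneg_right ht1 a2
      rw [abs_le]
      constructor <;> nlinarith
  refine h2.trans ?_
  have e : ∫ t, (gF g b A m p t * gF g b A m q t + (x * gF g b A m q t + y * gF g b A m p t + x * y))
        ∂U01 = (∫ t, gF g b A m p t * gF g b A m q t ∂U01) + (x * (∫ t, gF g b A m q t ∂U01) +
          y * (∫ t, gF g b A m p t ∂U01) + x * y) := by
    rw [integral_add, integral_add, integral_add, integral_const_mul, integral_const_mul,
      integral_const, U01_univ, smul_eq_mul, one_mul]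
    · exact i2.const_mul x
    · exact i1.const_mul y
    · exact (i2.const_mul x).add (i1.const_mul y)
    · exact integrable_const _
    · exact i3
    · exact ((i2.const_mul x).add (i1.const_mul y)).add (integrable_const _)
  rw [e]
  have d1 := mul_le_mul_of_nonneg_left hq1 hx
  have d2 := mul_le_mul_of_nonneg_left hp1 hy
  linarith

lemma diag_le (hg : ∀ q n, g q n = 0 ∨ g q n = 1) (hb : 2 ≤ b) (A m l : ℕ → ℕ) {q : ℕ}
    {y : ℝ} (hq : ∀ᵐ t ∂U01, gM g b A m l q t ≤ y)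
    (hq1 : ∫ t, gF g b A m q t ∂U01 ≤ y) :
    ∫ t, (gF g b A m q t - gM g b A m l q t) ^ 2 ∂U01 ≤ 2 * y := by
  have i2 : Integrable (gF g b A m q) U01 := bdd_int (gF_meas g b A m q)
    (gF_nonneg hg b A m q) (gF_le_one hg b A m q)
  have h2 : ∫ t, (gF g b A m q t - gM g b A m l q t) ^ 2 ∂U01 ≤
      ∫ t, (gF g b A m q t + y) ∂U01 := by
    apply integral_mono_ae
    · refine Integrable.of_bound (((gF_meas g b A m q).sub (gM_meas g b A m l q)).pow_const
        2).aestronglyMeasurable 1 (Eventually.of_forall fun t => ?_)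
      rw [Real.norm_eq_abs, abs_pow]
      exact pow_le_one₀ (abs_nonneg _) (ms_abs (hg q) hb _ _ _)
    · exact i2.add (integrable_const _)
    · filter_upwards [hq] with t ht
      have a3 := gM_nonneg hg b A m l q t
      have a4 := gM_le_one hg hb A m l q t
      rcases gF01 hg b A m q t with h5 | h5
      · rw [h5]; nlinarith
      · rw [h5]; nlinarith
  refine h2.trans ?_
  rw [integral_add i2 (integrable_const _), integral_const, U01_univ, smul_eq_mul]
  linarith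

/-- **The row system of random lower digits.** -/
theorem row_of (hg : ∀ q n, g q n = 0 ∨ g q n = 1) (hb : 2 ≤ b) {A m l : ℕ → ℕ} {I : Set ℕ}
    {w lam : ℕ → ℝ} {P : ℕ} (hlm : ∀ q ≥ P, l q ≤ m q) (w0 : ∀ q, 0 ≤ w q) (w1 : ∀ q, w q ≤ 1)
    (lam1 : ∀ q, 1 ≤ lam q) (wB : ∃ B0 : ℝ, 0 ≤ B0 ∧ ∀ q, q ∈ I → w q * lam q ≤ B0)
    {K C : ℝ} (hK : 0 < K) (hC : 0 < C)
    (hup : ∀ᵐ t ∂U01, ∀ q ≥ P, q ∈ I → gM g b A m l q t ≤ K * w q)
    (hone : ∀ q ≥ P, q ∈ I → ∫ t, gF g b A m q t ∂U01 ≤ K * w q)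
    (hpair : ∀ q ≥ P, q ∈ I → ∀ T : Finset ℕ, (∀ p ∈ T, p ∈ I ∧ P ≤ p ∧ p < q ∧ l q < m p) →
      ∑ p ∈ T, ∫ t, gF g b A m p t * gF g b A m q t ∂U01 ≤ C * (w q * lam q))
    (hnear : ∀ q ≥ P, q ∈ I → ∀ T : Finset ℕ, (∀ p ∈ T, p ∈ I ∧ P ≤ p ∧ p < q ∧ l q < m p) →
      ∑ p ∈ T, w p ≤ C * lam q) :
    Row U01 (gF g b A m) (gM g b A m l) I w lam P := by
  refine ⟨gF_meas g b A m, gM_meas g b A m l, gF01 hg b A m, gM_nonneg hg b A m l,
    fun q t => gM_le_one hg hb A m l q t, w0, w1, lam1, wB, ⟨K, hK.le, hup⟩,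
    ⟨2 * K + C + 3 * K ^ 2 * C, by positivity, fun q hq hqI => ?_, fun q hq hqI T hT => ?_⟩⟩
  · have h1 := diag_le hg hb A m l (hup.mono fun t ht => ht q hq hqI) (hone q hq hqI)
    have h2 := w0 q
    have h3 := lam1 q
    have h4 : w q ≤ w q * lam q := by nlinarith
    have h5 : 0 ≤ w q * lam q := by nlinarith
    calc _ ≤ 2 * (K * w q) := h1
      _ ≤ 2 * K * (w q * lam q) := by nlinarith
      _ ≤ (2 * K + C + 3 * K ^ 2 * C) * (w q * lam q) := by
          apply mul_le_mul_of_nonneg_right _ h5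
          have : 0 ≤ 3 * K ^ 2 * C := by positivity
          linarith
  · classical
    set N := T.filter (fun p => l q < m p) with hN
    have hzero : ∀ p ∈ T, p ∉ N →
        |∫ t, (gF g b A m p t - gM g b A m l p t) * (gF g b A m q t - gM g b A m l q t) ∂U01| = 0 := by
      intro p hp hpN
      have h1 : ¬ l q < m p := fun h => hpN (mem_filter.2 ⟨hp, h⟩)
      rw [far_zero hg hb A m l (hlm p (hT p hp).2.1) (hlm q hq) (by omega), abs_zero]
    rw [← Finset.sum_subset (filter_subset _ _) hzero]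
    have hNm : ∀ p ∈ N, p ∈ I ∧ P ≤ p ∧ p < q ∧ l q < m p := by
      intro p hp
      rw [hN, mem_filter] at hp
      obtain ⟨h1, h2, h3⟩ := hT p hp.1
      exact ⟨h1, h2, h3, hp.2⟩
    have h1 : ∀ p ∈ N,
        |∫ t, (gF g b A m p t - gM g b A m l p t) * (gF g b A m q t - gM g b A m l q t) ∂U01| ≤
        (∫ t, gF g b A m p t * gF g b A m q t ∂U01) + 3 * ((K * w p) * (K * w q)) := by
      intro p hp
      obtain ⟨h1, h2, h3, h4⟩ := hNm p hp
      exact near_le hg hb A m l (mul_nonneg hK.le (w0 p)) (mul_nonneg hK.le (w0 q))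
        (hup.mono fun t ht => ht p h2 h1) (hup.mono fun t ht => ht q hq hqI)
        (hone p h2 h1) (hone q hq hqI)
    refine (Finset.sum_le_sum h1).trans ?_
    rw [Finset.sum_add_distrib]
    have h2 := hpair q hq hqI N hNm
    have h3 := hnear q hq hqI N hNm
    have h4 : ∑ p ∈ N, 3 * ((K * w p) * (K * w q)) = 3 * K ^ 2 * w q * ∑ p ∈ N, w p := by
      rw [Finset.mul_sum]
      refine Finset.sum_congr rfl fun p _ => ?_
      ring
    rw [h4]
    have h5 := w0 q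
    have h6 : 3 * K ^ 2 * w q * ∑ p ∈ N, w p ≤ 3 * K ^ 2 * w q * (C * lam q) :=
      mul_le_mul_of_nonneg_left h3 (by positivity)
    have h7 : 0 ≤ w q * lam q := mul_nonneg h5 (by linarith [lam1 q])
    have h8 : 0 ≤ 2 * K * (w q * lam q) := by positivity
    calc _ ≤ C * (w q * lam q) + 3 * K ^ 2 * w q * (C * lam q) := add_le_add h2 h6
      _ = (C + 3 * K ^ 2 * C) * (w q * lam q) := by ring
      _ ≤ _ := by nlinarith

end

end Pool.Agent.Y895.OL
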