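import Pool.Agent.Y895.PM.C0
import Pool.Agent.H295R3.Hoheisel

set_option autoImplicit false

/-!
# A lower bound for the number of integers with prime rough part in short intervals
-/

namespace Pool.Agent.Y895.OL

open Finset Filter Topology
open Pool.Agent.Y895.PM (cnt fn fn_nonneg fn_le_one)
open Pool.Agent.H305R2 (roughPart roughPart_mul SM)

/-- primes in short intervals at an exponential scale, after division by a small integer -/
lemma primes_scaled : ∃ δ η : ℝ, 0 < δ ∧ δ < 1 / 2 ∧ 0 < η ∧ ∀ α : ℝ, 1 < α → ∀ C : ℝ,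
    0 < C → ∃ P : ℕ, ∀ q ≥ P, ∀ B L d : ℕ, 1 ≤ d → d ≤ q → L ≤ B → (B : ℝ) ≤ C * α ^ q →
    (q : ℝ) * (1 - δ) * Real.log α ≤ Real.log L → ∃ X Y : ℕ, q ≤ X ∧
      B ≤ d * X ∧ d * (X + Y) < B + L ∧
      η / Real.log α * (1 / q) * (L / d) ≤ (((Ioc X (X + Y)).filter Nat.Prime).card : ℝ) := by
  obtain ⟨δ0, η0, hδ0, hδ1, hη0, X₀, hX₀, hH⟩ := Pool.Agent.H295R3.D.hoheisel
  refine ⟨δ0 / 2, η0 / 4, by positivity, by linarith, by positivity, fun α hα C hC => ?_⟩
  have hlb : 0 < Real.log α := Real.log_pos hα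
  have hα0 : 0 < α := by linarith
  set δ := δ0 / 2 with hδ
  have hδp : 0 < δ := by positivity
  have hδh : δ < 1 / 2 := by linarith
  have hlogs : ∀ᶠ q : ℕ in atTop, |Real.log (4 * C)| + 2 * Real.log (q : ℝ) + 10 + X₀ ≤
      q * (δ / 2 * Real.log α) := by
    have h1 := (Real.isLittleO_log_id_atTop).bound
      (show (0 : ℝ) < δ * Real.log α / 8 by positivity)
    have h2 : ∀ᶠ x : ℝ in atTop, (|Real.log (4 * C)| + 10 + X₀) / (δ / 4 * Real.log α) ≤ x :=
      eventually_ge_atTop _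
    have h3 : ∀ᶠ x : ℝ in atTop, |Real.log (4 * C)| + 2 * Real.log x + 10 + X₀ ≤
        x * (δ / 2 * Real.log α) := by
      filter_upwards [h1, h2, eventually_ge_atTop 1] with x h1 h2 h3
      rw [Real.norm_of_nonneg (Real.log_nonneg h3), id, Real.norm_of_nonneg (by linarith)] at h1
      rw [div_le_iff₀ (by positivity)] at h2
      nlinarith
    exact tendsto_natCast_atTop_atTop.eventually h3
  obtain ⟨P, hP⟩ := (hlogs.and (eventually_ge_atTop 2)).exists_forall_of_atTop
  refine ⟨P, fun q hq B L d hd1 hdq hLB hBC hL => ?_⟩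
  obtain ⟨g1, g2⟩ := hP q hq
  have hq2 : (2 : ℝ) ≤ q := by exact_mod_cast g2
  have hq0 : (0 : ℝ) < q := by linarith
  have hd0 : (0 : ℝ) < d := by exact_mod_cast hd1
  have hd1r : (1 : ℝ) ≤ d := by exact_mod_cast hd1
  have hdqr : (d : ℝ) ≤ q := by exact_mod_cast hdq
  have hlq : 0 ≤ Real.log (q : ℝ) := Real.log_nonneg (by linarith)
  have habs := abs_nonneg (Real.log (4 * C))
  have habs2 := le_abs_self (Real.log (4 * C))
  have hX₀r : (2 : ℝ) ≤ X₀ := by exact_mod_cast hX₀
  have hLpos : (0 : ℝ) < L := by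
    by_contra h
    have h1 : (L : ℝ) = 0 := le_antisymm (not_lt.1 h) (Nat.cast_nonneg L)
    rw [h1, Real.log_zero] at hL
    have : 0 < (q : ℝ) * (1 - δ) * Real.log α := by
      have : 0 < 1 - δ := by linarith
      positivity
    linarith
  have hLr : (L : ℝ) ≤ B := by exact_mod_cast hLB
  have hBpos : (0 : ℝ) < B := by linarith
  have hqe : (q : ℝ) = Real.exp (Real.log q) := (Real.exp_log hq0).symm
  -- the length is large
  have hLbig : Real.exp (10 + X₀ + 2 * Real.log q) ≤ L := by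
    rw [← Real.le_log_iff_exp_le hLpos]
    refine le_trans ?_ hL
    have h2 : (q : ℝ) * (δ / 2 * Real.log α) ≤ q * (1 - δ) * Real.log α := by
      have : δ / 2 ≤ 1 - δ := by linarith
      have h3 : δ / 2 * Real.log α ≤ (1 - δ) * Real.log α := mul_le_mul_of_nonneg_right this hlb.le
      have h4 := mul_le_mul_of_nonneg_left h3 hq0.le
      linarith
    linarith
  have hLq : (12 + (X₀ : ℝ)) * q * d ≤ L := by
    have e1 : Real.exp (10 + X₀ + 2 * Real.log q) = Real.exp (10 + X₀) * q ^ 2 := by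
      rw [Real.exp_add, two_mul, Real.exp_add (Real.log q), Real.exp_log hq0]
      ring
    rw [e1] at hLbig
    have e2 : (12 + (X₀ : ℝ)) ≤ Real.exp (10 + X₀) := by
      have h1 := Real.add_one_le_exp ((X₀ : ℝ) + 9)
      have h2 : Real.exp (10 + (X₀ : ℝ)) = Real.exp ((X₀ : ℝ) + 9) * Real.exp 1 := by
        rw [← Real.exp_add]; congr 1; ring
      have h3 := Real.exp_one_gt_d9
      have h4 := Real.exp_pos ((X₀ : ℝ) + 9)
      rw [h2]
      nlinarith
    have e3 : (12 + (X₀ : ℝ)) * q * d ≤ (12 + X₀) * q ^ 2 := by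
      rw [sq, mul_assoc]
      have : (q : ℝ) * d ≤ q * q := mul_le_mul_of_nonneg_left hdqr hq0.le
      exact mul_le_mul_of_nonneg_left this (by linarith)
    have e4 : (12 + (X₀ : ℝ)) * q ^ 2 ≤ Real.exp (10 + X₀) * q ^ 2 :=
      mul_le_mul_of_nonneg_right e2 (by positivity)
    linarith
  set X := B / d + 1 with hX
  set Y := L / d - 2 with hY
  have hLd : (12 + X₀) * q ≤ L / d := by
    rw [Nat.le_div_iff_mul_le (by omega)]
    exact_mod_cast hLq
  have hLd2 : 12 ≤ L / d := by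
    have : 12 * 1 ≤ (12 + X₀) * q := Nat.mul_le_mul (by omega) (by omega)
    omega
  have hBd : L / d ≤ B / d := Nat.div_le_div_right hLB
  have hXq : q ≤ X := by
    have : 1 * q ≤ (12 + X₀) * q := Nat.mul_le_mul_right q (by omega)
    omega
  have hXX₀ : X₀ ≤ X := by
    have : X₀ * 1 ≤ (12 + X₀) * q := Nat.mul_le_mul (by omega) (by omega)
    omega
  have hYX : Y ≤ X := by omega
  have hdm := Nat.div_add_mod B d
  have hml := Nat.mod_lt B (by omega : 0 < d)
  have hdmL := Nat.div_mul_le_self L d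
  have hB1 : B ≤ d * X := by
    rw [hX, mul_add, mul_one]
    omega
  have hB2 : d * (X + Y) < B + L := by
    have h1 : X + Y + 1 = B / d + L / d := by omega
    have h2 : d * (X + Y + 1) = d * (B / d) + d * (L / d) := by rw [h1, mul_add]
    have h3 : d * (X + Y + 1) = d * (X + Y) + d := by ring
    have h4 : d * (L / d) ≤ L := by rw [mul_comm]; exact hdmL
    omega
  refine ⟨X, Y, hXq, hB1, hB2, ?_⟩
  -- sizes
  have hYlow : (L : ℝ) / (2 * d) ≤ Y := by
    have h1 : (L : ℝ) < d * ((L / d : ℕ) + 1) := by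
      have := Nat.lt_mul_div_succ L (by omega : 0 < d)
      exact_mod_cast this
    have h2 : ((L / d : ℕ) : ℝ) = Y + 2 := by
      have : L / d = Y + 2 := by omega
      rw [this]; push_cast; ring
    rw [h2] at h1
    have h3 : (10 : ℝ) ≤ Y := by
      have : 10 ≤ Y := by omega
      exact_mod_cast this
    rw [div_le_iff₀ (by positivity)]
    nlinarith
  have hYpos : (0 : ℝ) < Y := lt_of_lt_of_le (by positivity) hYlow
  have hXup : (X : ℝ) ≤ 4 * C * α ^ q := by
    have h1 : X ≤ 2 * B := by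
      have h5 : B / d ≤ B := Nat.div_le_self B d
      have h6 : 1 ≤ B := by exact_mod_cast hBpos
      omega
    have h2 : (X : ℝ) ≤ 2 * B := by exact_mod_cast h1
    have h3 : 0 < C * α ^ q := by positivity
    linarith
  have hXpos : (0 : ℝ) < X := by
    have : 0 < X := by omega
    exact_mod_cast this
  have hlX : Real.log X ≤ |Real.log (4 * C)| + q * Real.log α := by
    have h1 := Real.log_le_log hXpos hXup
    rw [Real.log_mul (by positivity) (by positivity), Real.log_pow] at h1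
    linarith
  have hlX0 : 0 < Real.log X := by
    apply Real.log_pos
    have : 2 ≤ X := by omega
    have : (2 : ℝ) ≤ X := by exact_mod_cast this
    linarith
  have hpow : (X : ℝ) ^ (1 - δ0) ≤ Y := by
    rw [Real.rpow_def_of_pos hXpos, ← Real.le_log_iff_exp_le hYpos]
    have h1 : Real.log (L / (2 * d)) ≤ Real.log Y := Real.log_le_log (by positivity) hYlow
    rw [Real.log_div hLpos.ne' (by positivity), Real.log_mul (by norm_num) hd0.ne'] at h1
    have h2 : Real.log d ≤ Real.log q := Real.log_le_log hd0 hdqr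
    have h3 := Real.log_two_lt_d9
    have h4 : Real.log X * (1 - δ0) ≤ (|Real.log (4 * C)| + q * Real.log α) * (1 - δ0) :=
      mul_le_mul_of_nonneg_right hlX (by linarith)
    have h5 : |Real.log (4 * C)| * (1 - δ0) ≤ |Real.log (4 * C)| * 1 :=
      mul_le_mul_of_nonneg_left (by linarith) habs
    have h6 : (q : ℝ) * Real.log α * (1 - δ0) = q * (1 - δ) * Real.log α - q * (δ * Real.log α) := by
      rw [hδ]; ring
    have h7 : (q : ℝ) * (δ / 2 * Real.log α) ≤ q * (δ * Real.log α) := by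
      have : 0 ≤ (q : ℝ) * (δ / 2 * Real.log α) := by positivity
      nlinarith
    nlinarith
  have key := hH X Y hXX₀ hpow hYX
  refine le_trans ?_ key
  have hl2 : Real.log X ≤ 2 * (q * Real.log α) := by
    have h7 : (q : ℝ) * (δ / 2 * Real.log α) ≤ q * Real.log α := by
      have : δ / 2 * Real.log α ≤ 1 * Real.log α := mul_le_mul_of_nonneg_right (by linarith) hlb.le
      have := mul_le_mul_of_nonneg_left this hq0.le
      linarith
    linarith
  calc η0 / 4 / Real.log α * (1 / q) * (L / d) = η0 * (L / (2 * d)) / (2 * (q * Real.log α)) := by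
        field_simp
        ring
    _ ≤ η0 * Y / Real.log X := by
        apply div_le_div₀ (by positivity) (mul_le_mul_of_nonneg_left hYlow hη0.le) hlX0 hl2

open Classical in
/-- **Lower bound for the number of integers with prime rough part in a short block.** -/
theorem cnt_lower : ∃ δ η : ℝ, 0 < δ ∧ δ < 1 / 2 ∧ 0 < η ∧ ∀ α : ℝ, 1 < α → ∀ C : ℝ,
    0 < C → ∃ P : ℕ, ∀ q ≥ P, ∀ B L : ℕ, L ≤ B → (B : ℝ) ≤ C * α ^ q →
    (q : ℝ) * (1 - δ) * Real.log α ≤ Real.log L →
    η / Real.log α * (Real.log q / q) * L ≤ cnt q B L := by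
  obtain ⟨δ, η, hδ, hδ2, hη, h⟩ := primes_scaled
  refine ⟨δ, η, hδ, hδ2, hη, fun α hα C hC => ?_⟩
  obtain ⟨P, hP⟩ := h α hα C hC
  have hlb : 0 < Real.log α := Real.log_pos hα
  refine ⟨P + 2, fun q hq B L hLB hBC hL => ?_⟩
  have hex : ∀ d : ℕ, ∃ X Y : ℕ, 1 ≤ d → d ≤ q → q ≤ X ∧
      B ≤ d * X ∧ d * (X + Y) < B + L ∧
      η / Real.log α * (1 / q) * (L / d) ≤ (((Ioc X (X + Y)).filter Nat.Prime).card : ℝ) := by
    intro d
    by_cases hd : 1 ≤ d ∧ d ≤ q
    · obtain ⟨X, Y, h1⟩ := hP q (by omega) B L d hd.1 hd.2 hLB hBC hL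
      exact ⟨X, Y, fun _ _ => h1⟩
    · exact ⟨0, 0, fun h1 h2 => absurd ⟨h1, h2⟩ hd⟩
  choose X Y hXY using hex
  have hq2 : 2 ≤ q := by omega
  have hq0 : (0 : ℝ) < q := by positivity
  set U : Finset (Σ _ : ℕ, ℕ) := (Icc 1 q).sigma
    (fun d => (Ioc (X d) (X d + Y d)).filter Nat.Prime) with hU
  have hcard : (U.card : ℝ) ≤ cnt q B L := by
    have e1 : cnt q B L = (((range L).filter (fun D => (roughPart q (B + D)).Prime)).card : ℝ) := by
      unfold cnt fn
      rw [Finset.sum_boole]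
    rw [e1]
    have hrough : ∀ d ℓ : ℕ, 1 ≤ d → d ≤ q → ℓ.Prime → q < ℓ → roughPart q (d * ℓ) = ℓ := by
      intro d ℓ hd1 hd2 hℓ hqℓ
      refine roughPart_mul ?_ hℓ hqℓ
      show d ∈ Nat.smoothNumbers (q + 1)
      rw [Nat.mem_smoothNumbers']
      intro p hp hpd
      have := Nat.le_of_dvd (by omega) hpd
      omega
    have hmem : ∀ x ∈ U, 1 ≤ x.1 ∧ x.1 ≤ q ∧ x.2.Prime ∧ q < x.2 ∧ B ≤ x.1 * x.2 ∧
        x.1 * x.2 < B + L := by
      intro x hx
      rw [hU, mem_sigma, mem_Icc, mem_filter, mem_Ioc] at hx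
      obtain ⟨⟨h1, h2⟩, ⟨h3, h4⟩, h5⟩ := hx
      obtain ⟨g1, g2, g3, -⟩ := hXY x.1 h1 h2
      refine ⟨h1, h2, h5, by omega, ?_, ?_⟩
      · exact g2.trans (Nat.mul_le_mul_left _ h3.le)
      · exact lt_of_le_of_lt (Nat.mul_le_mul_left _ h4) g3
    have : U.card ≤ ((range L).filter (fun D => (roughPart q (B + D)).Prime)).card := by
      refine Finset.card_le_card_of_injOn (fun x => x.1 * x.2 - B) ?_ ?_
      · intro x hx
        obtain ⟨h1, h2, h3, h4, h5, h6⟩ := hmem x hx
        rw [Finset.mem_coe, mem_filter, mem_range]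
        have e : B + (x.1 * x.2 - B) = x.1 * x.2 := Nat.add_sub_cancel' h5
        show x.1 * x.2 - B < L ∧ (roughPart q (B + (x.1 * x.2 - B))).Prime
        rw [e, hrough _ _ h1 h2 h3 h4]
        exact ⟨by omega, h3⟩
      · intro x hx y hy hxy
        obtain ⟨h1, h2, h3, h4, h5, h6⟩ := hmem x hx
        obtain ⟨k1, k2, k3, k4, k5, k6⟩ := hmem y hy
        simp only at hxy
        have e : x.1 * x.2 = y.1 * y.2 := by
          have e0 := Nat.sub_add_cancel h5
          have e1 := Nat.sub_add_cancel k5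
          rw [← e0, ← e1, hxy]
        have e2 : x.2 = y.2 := by
          rw [← hrough _ _ h1 h2 h3 h4, e, hrough _ _ k1 k2 k3 k4]
        have e3 : x.1 = y.1 := by
          rw [e2] at e
          exact Nat.eq_of_mul_eq_mul_right k3.pos e
        obtain ⟨x1, x2⟩ := x
        obtain ⟨y1, y2⟩ := y
        simp only at e2 e3
        subst e2 e3
        rfl
    exact_mod_cast this
  refine le_trans ?_ hcard
  rw [hU, Finset.card_sigma]
  push_cast
  have h1 : ∀ d ∈ Icc 1 q, η / Real.log α * (1 / q) * (L / d) ≤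
      (((Ioc (X d) (X d + Y d)).filter Nat.Prime).card : ℝ) := by
    intro d hd
    rw [mem_Icc] at hd
    exact (hXY d hd.1 hd.2).2.2.2
  refine le_trans ?_ (Finset.sum_le_sum h1)
  have h2 : ∑ d ∈ Icc 1 q, η / Real.log α * (1 / q) * ((L : ℝ) / d) =
      η / Real.log α * (1 / q) * L * ∑ d ∈ Icc 1 q, (d : ℝ)⁻¹ := by
    rw [Finset.mul_sum]
    refine Finset.sum_congr rfl fun d _ => ?_
    rw [div_eq_mul_inv (L : ℝ)]
    ring
  rw [h2]
  have h3 : Real.log q ≤ ∑ d ∈ Icc 1 q, (d : ℝ)⁻¹ := by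
    have h4 := log_add_one_le_harmonic q
    rw [harmonic_eq_sum_Icc] at h4
    push_cast at h4
    refine le_trans ?_ h4
    exact Real.log_le_log hq0 (by linarith)
  calc η / Real.log α * (Real.log q / q) * L = η / Real.log α * (1 / q) * L * Real.log q := by ring
    _ ≤ _ := by
        apply mul_le_mul_of_nonneg_left h3
        positivity

end Pool.Agent.Y895.OL
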