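import Pool.Agent.Y895.OL.A2
import Pool.Agent.Y895.OL.A3
import Pool.Agent.Y895.FB.F3a

set_option autoImplicit false

/-!
# Rough parts with a positive proportion of prescribed upper digits
-/

namespace Pool.Agent.Y895.OL

open Finset Filter Topology MeasureTheory
open Pool.Agent.H305R2 (roughPart log_nat_tendsto)
open Pool.Agent.TH888.R (wt wt_nonneg wt_le_one)
open Pool.Agent.W66S (count_primes)
open Pool.Agent.Y895.PM (U01 cnt fn XX gf ee ee_eq cnt_le ee_nonneg ee_le_one cs_abs gf_meas
  corr_p gf01 gf_int gf_mul_int U01_univ fn_nonneg fn_le_one fn01 pow_exp)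
open Pool.Agent.Y895.FB (row_real blocka_up neara)

/-- families with a positive proportion of prescribed digits -/
structure AdmD (b : ℕ) (α δ c C : ℝ) (A m : ℕ → ℕ) (P : ℕ) : Prop where
  mono : ∀ p ≥ P, ∀ q ≥ p, m p ≤ m q
  lo : ∀ p ≥ P, c * α ^ p ≤ A p
  up : ∀ p ≥ P, (A p : ℝ) ≤ C * α ^ p
  dig : ∀ p ≥ P, b ^ m p ≤ A p
  big : ∀ p ≥ P, (p : ℝ) * (1 - δ) * Real.log α ≤ m p * Real.log b

/-- the number of digits of `t` that define the local mean -/
noncomputable def lv (b : ℕ) (α δ : ℝ) (q : ℕ) : ℕ := ⌊δ * Real.log α / Real.log b * q⌋₊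

lemma lv_le {b : ℕ} (hb : 2 ≤ b) {α δ : ℝ} (hα : 1 < α) (hδ : 0 < δ) (q : ℕ) :
    (lv b α δ q : ℝ) * Real.log b ≤ δ * Real.log α * q := by
  have hlb : 0 < Real.log α := Real.log_pos hα
  have hlbb : 0 < Real.log b := Real.log_pos (by exact_mod_cast (by omega : 1 < b))
  have h1 : (lv b α δ q : ℝ) ≤ δ * Real.log α / Real.log b * q := Nat.floor_le (by positivity)
  calc (lv b α δ q : ℝ) * Real.log b ≤ (δ * Real.log α / Real.log b * q) * Real.log b :=
        mul_le_mul_of_nonneg_right h1 hlbb.le
    _ = δ * Real.log α * q := by field_simp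

lemma lt_lv {b : ℕ} (hb : 2 ≤ b) {α δ : ℝ} {q k : ℕ} (h : lv b α δ q < k) :
    δ * Real.log α * q ≤ k * Real.log b := by
  have hlbb : 0 < Real.log b := Real.log_pos (by exact_mod_cast (by omega : 1 < b))
  have h1 : δ * Real.log α / Real.log b * q < (lv b α δ q : ℝ) + 1 := Nat.lt_floor_add_one _
  have h2 : (lv b α δ q : ℝ) + 1 ≤ k := by exact_mod_cast h
  calc δ * Real.log α * q = (δ * Real.log α / Real.log b * q) * Real.log b := by field_simp
    _ ≤ k * Real.log b := mul_le_mul_of_nonneg_right (by linarith) hlbb.le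

/-- **The row system.** -/
theorem row_fb : ∃ δ η : ℝ, 0 < δ ∧ δ < 1 ∧ 0 < η ∧ ∀ α : ℝ, 1 < α → ∃ K : ℝ, 0 < K ∧ ∀ b : ℕ, 2 ≤ b →
    ∀ c C : ℝ, 0 < c → 0 < C → ∀ (A m : ℕ → ℕ) (P : ℕ), AdmD b α δ c C A m P →
    ∃ Q : ℕ, Row U01 (gF fn b A m) (gM fn b A m (lv b α δ)) {p | p.Prime} wt (fun _ => 1) Q ∧
      (∀ᵐ t ∂U01, ∀ q ≥ Q, q ∈ {p : ℕ | p.Prime} →
        η / Real.log α * wt q ≤ gM fn b A m (lv b α δ) q t) ∧
      (∀ᵐ t ∂U01, ∀ q ≥ Q, q ∈ {p : ℕ | p.Prime} → gM fn b A m (lv b α δ) q t ≤ K * wt q) ∧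
      (∀ q ≥ Q, q ∈ {p : ℕ | p.Prime} → ∫ t, gF fn b A m q t ∂U01 ≤ K * wt q) := by
  obtain ⟨δ3, η, hδ3, hδ32, hη, hlow⟩ := cnt_lower
  set δ := δ3 / 16 with hδ
  have hδ0 : 0 < δ := by positivity
  have hδ1 : δ < 1 / 32 := by rw [hδ]; linarith
  refine ⟨δ, η, hδ0, by linarith, hη, fun α hα => ?_⟩
  obtain ⟨C1, hC1, P1, hP1⟩ := blocka_up hα
  refine ⟨C1, hC1, fun b hb c C hc hC A m P hadm => ?_⟩
  have hbr : (2 : ℝ) ≤ b := by exact_mod_cast hb
  have hb0 : (0 : ℝ) < b := by linarith
  have hα0 : 0 < α := by linarith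
  have hlbb : 0 < Real.log b := Real.log_pos (by linarith)
  have hlb : 0 < Real.log α := Real.log_pos hα
  obtain ⟨K2, hK2, P2, hP2⟩ := neara hb hα hc hC
  obtain ⟨P3, hP3⟩ := hlow α hα (2 * C) (by positivity)
  set D := |Real.log C| with hD
  have hD0 : 0 ≤ D := abs_nonneg _
  have hev1 : ∀ᶠ q : ℕ in atTop, D / (δ / 2 * Real.log α) ≤ q :=
    tendsto_natCast_atTop_atTop.eventually_ge_atTop _
  have hev2 : ∀ᶠ q : ℕ in atTop, 1 ≤ Real.log q := log_nat_tendsto.eventually_ge_atTop _
  obtain ⟨P4, hP4⟩ := (hev1.and hev2).exists_forall_of_atTop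
  set Q0 := P + P1 + P2 + P3 + P4 + 16 with hQ0
  have hDq : ∀ q ≥ Q0, D ≤ q * (δ / 2 * Real.log α) := by
    intro q hq
    have h1 := (hP4 q (by omega)).1
    rw [div_le_iff₀ (by positivity)] at h1
    exact h1
  have hlq1 : ∀ q ≥ Q0, 1 ≤ Real.log q := fun q hq => (hP4 q (by omega)).2
  have hq16 : ∀ q ≥ Q0, (16 : ℝ) ≤ q := fun q hq => by exact_mod_cast (by omega : 16 ≤ q)
  have hbig : ∀ q ≥ Q0, (q : ℝ) * (1 - δ) * Real.log α ≤ m q * Real.log b :=
    fun q hq => hadm.big q (by omega)
  have hbig15 : ∀ q ≥ Q0, 15 / 16 * (q : ℝ) * Real.log α ≤ m q * Real.log b := by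
    intro q hq
    have h1 := hbig q hq
    have h2 := hq16 q hq
    have h3 : 15 / 16 * (q : ℝ) ≤ q * (1 - δ) := by nlinarith
    exact (mul_le_mul_of_nonneg_right h3 hlb.le).trans h1
  have hmup : ∀ p ≥ Q0, (m p : ℝ) * Real.log b ≤ p * Real.log α + D := by
    intro p hp
    have h1 := hadm.dig p (by omega)
    have h2 := hadm.up p (by omega)
    have h3 : (b : ℝ) ^ m p ≤ C * α ^ p := by
      have : (b : ℝ) ^ m p ≤ A p := by exact_mod_cast h1
      linarith
    have h4 := Real.log_le_log (by positivity) h3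
    rw [Real.log_mul hC.ne' (by positivity), Real.log_pow, Real.log_pow] at h4
    have h5 := le_abs_self (Real.log C)
    linarith
  have hA1 : ∀ q ≥ Q0, 1 ≤ A q := by
    intro q hq
    have := hadm.dig q (by omega)
    have h2 : 0 < b ^ m q := by positivity
    omega
  -- levels
  have hlvm : ∀ q ≥ Q0, (q : ℝ) * (1 - 2 * δ) * Real.log α ≤
      ((m q : ℝ) - lv b α δ q) * Real.log b := by
    intro q hq
    have h1 := lv_le hb hα hδ0 q
    have h2 := hbig q hq
    nlinarith
  have hlm : ∀ q ≥ Q0, lv b α δ q ≤ m q := by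
    intro q hq
    have h1 := hlvm q hq
    have h2 := hq16 q hq
    by_contra h
    have h3 : (m q : ℝ) - lv b α δ q ≤ 0 := by
      have : (m q : ℝ) ≤ lv b α δ q := by exact_mod_cast (by omega : m q ≤ lv b α δ q)
      linarith
    have h4 : ((m q : ℝ) - lv b α δ q) * Real.log b ≤ 0 :=
      mul_nonpos_of_nonpos_of_nonneg h3 hlbb.le
    have h5 : 0 < (q : ℝ) * (1 - 2 * δ) * Real.log α := by
      have : 0 < 1 - 2 * δ := by linarith
      positivity
    linarith
  have hlevel : ∀ q ≥ Q0, ∀ k < b ^ lv b α δ q,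
      A q ≤ A q + b ^ (m q - lv b α δ q) * k ∧
      A q + b ^ (m q - lv b α δ q) * k + b ^ (m q - lv b α δ q) ≤ 2 * A q := by
    intro q hq k hk
    have h2 := hadm.dig q (by omega)
    have h3 := hlm q hq
    have h4 : b ^ (m q - lv b α δ q) * k + b ^ (m q - lv b α δ q) ≤ b ^ m q := by
      calc b ^ (m q - lv b α δ q) * k + b ^ (m q - lv b α δ q) =
            b ^ (m q - lv b α δ q) * (k + 1) := by ring
        _ ≤ b ^ (m q - lv b α δ q) * b ^ lv b α δ q := Nat.mul_le_mul_left _ hk
        _ = b ^ m q := by rw [← pow_add, Nat.sub_add_cancel h3]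
    omega
  have hmeans : ∀ q ≥ Q0, ∀ t : ℝ, 0 ≤ t → t < 1 →
      η / Real.log α * wt q ≤ gM fn b A m (lv b α δ) q t ∧
      gM fn b A m (lv b α δ) q t ≤ C1 * wt q := by
    intro q hq t ht0 ht1
    set h := m q - lv b α δ q with hh
    set k := ⌊(b : ℝ) ^ lv b α δ q * t⌋₊ with hk
    have hkl : k < b ^ lv b α δ q := floor_lt_pow hb _ ht1
    have e2 : A q + b ^ h * k + b ^ h ≤ 2 * A q := (hlevel q hq k hkl).2
    have h0 : (0 : ℝ) < (b : ℝ) ^ h := by positivity
    have hLB : b ^ h ≤ A q + b ^ h * k := by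
      have h1 : b ^ h ≤ b ^ m q := Nat.pow_le_pow_right (by omega) (by omega)
      have h2 := hadm.dig q (by omega)
      omega
    have hlogL : Real.log ((b ^ h : ℕ) : ℝ) = ((m q : ℝ) - lv b α δ q) * Real.log b := by
      push_cast
      rw [Real.log_pow, hh, Nat.cast_sub (hlm q hq)]
    have hlv := hlvm q hq
    have hq16' := hq16 q hq
    have e : gM fn b A m (lv b α δ) q t = ((b : ℝ) ^ h)⁻¹ * cnt q (A q + b ^ h * k) (b ^ h) := rfl
    constructor
    · have h1 := hP3 q (by omega) (A q + b ^ h * k) (b ^ h) hLB (by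
        have h2 := hadm.up q (by omega)
        have h3 : ((A q + b ^ h * k : ℕ) : ℝ) ≤ ((2 * A q : ℕ) : ℝ) := by
          exact_mod_cast (by omega : A q + b ^ h * k ≤ 2 * A q)
        push_cast at h3 ⊢
        linarith) (by
        rw [hlogL]
        refine le_trans ?_ hlv
        apply mul_le_mul_of_nonneg_right _ hlb.le
        apply mul_le_mul_of_nonneg_left _ (by linarith)
        rw [hδ]; linarith)
      rw [e, inv_mul_eq_div, le_div_iff₀ h0]
      push_cast at h1
      exact h1
    · have h1 := hP1 q (by omega) (A q + b ^ h * k) (b ^ h) (by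
        have := hA1 q hq
        omega) hLB (by
        rw [hlogL]
        refine le_trans ?_ hlv
        apply mul_le_mul_of_nonneg_right _ hlb.le
        nlinarith)
      rw [e, inv_mul_eq_div, div_le_iff₀ h0]
      push_cast at h1
      exact h1
  have hup : ∀ q ≥ Q0, ee b A m q ≤ C1 * wt q := by
    intro q hq
    have h5 := hP1 q (by omega) (A q) (b ^ m q) (hA1 q hq) (hadm.dig q (by omega)) (by
      push_cast
      rw [Real.log_pow]
      have h1 := hbig15 q hq
      have h2 := hq16 q hq
      have : 0 ≤ (q : ℝ) * Real.log α := by positivity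
      linarith)
    push_cast at h5
    unfold ee
    rw [inv_mul_eq_div, div_le_iff₀ (by positivity)]
    exact h5
  have hblk : ∀ p ≥ Q0, ∀ q ≥ p, ∀ k < b ^ m p, A q ≤ A q + b ^ (m q - m p) * k ∧
      A q + b ^ (m q - m p) * k + b ^ (m q - m p) ≤ 2 * A q := by
    intro p hp q hq k hk
    have h2 := hadm.dig q (by omega)
    have h3 := hadm.mono p (by omega) q hq
    have h4 : b ^ (m q - m p) * k + b ^ (m q - m p) ≤ b ^ m q := by
      calc b ^ (m q - m p) * k + b ^ (m q - m p) = b ^ (m q - m p) * (k + 1) := by ring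
        _ ≤ b ^ (m q - m p) * b ^ m p := Nat.mul_le_mul_left _ hk
        _ = b ^ m q := by rw [← pow_add, Nat.sub_add_cancel h3]
    omega
  have hpw : ∀ p ≥ Q0, ∀ q ≥ p, (b : ℝ) ^ m q = (b : ℝ) ^ (m q - m p) * (b : ℝ) ^ m p := by
    intro p hp q hq
    rw [← pow_add, Nat.sub_add_cancel (hadm.mono p (by omega) q hq)]
  have hw0 : ∀ n : ℕ, 0 ≤ Real.log n / (n : ℝ) := fun n =>
    div_nonneg (Real.log_natCast_nonneg n) (Nat.cast_nonneg n)
  -- near pairs have comparable indices
  have hcomp : ∀ q ≥ Q0, ∀ p ≥ Q0, lv b α δ q < m p → δ / 2 * q ≤ p := by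
    intro q hq p hp h
    have h1 := lt_lv hb h
    have h2 := hmup p hp
    have h3 := hDq q hq
    have h4 : (δ / 2 * q) * Real.log α ≤ p * Real.log α := by linarith
    exact le_of_mul_le_mul_right h4 hlb
  classical
  set J : ℕ → ℕ → ℝ := fun p q => if Q0 ≤ p ∧ lv b α δ q < m p then
    ∫ t, gf b A m p t * gf b A m q t ∂U01 else 0 with hJ
  set K := C1 ^ 2 + K2 with hK
  have hKp : 0 < K := by positivity
  obtain ⟨C', hC', P', hP', hP3', hrow⟩ := row_real (κ := δ / 4) (K := K) (by positivity) hKp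
    (b := α) hα J Q0
    (by
      intro q hq p hp
      have hr0 : 0 ≤ K * (Real.log q / (q : ℝ) ^ 2) :=
        mul_nonneg hKp.le (div_nonneg (Real.log_natCast_nonneg q) (by positivity))
      simp only [hJ]
      split_ifs with hpQ
      · exfalso
        have h1 := hcomp q hq p hpQ.1 hpQ.2
        have h2 := hlq1 q hq
        have h3 := hq16 q hq
        have h4 : δ / 4 * q / Real.log q ≤ δ / 4 * q := by
          apply div_le_self (by positivity) h2
        have h5 : 0 < δ * (q : ℝ) := by positivity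
        linarith
      · rw [abs_zero]; exact hr0)
    (by
      intro p hp q hq
      have hpq : p ≤ q := by omega
      have hqQ : Q0 ≤ q := by omega
      have hwpq : 0 ≤ (Real.log p / (p : ℝ)) * (Real.log q / (q : ℝ)) := mul_nonneg (hw0 p) (hw0 q)
      simp only [hJ]
      split_ifs with hpQ
      · have hmm := hadm.mono p (by omega) q hpq
        have hprod : ∫ t, gf b A m p t * gf b A m q t ∂U01 ≤ C1 ^ 2 * (wt p * wt q) := by
          have h0 : (0 : ℝ) < (b : ℝ) ^ m q := by positivity
          have hh : (q : ℝ) / 4 * Real.log α ≤ ((m q - m p : ℕ) : ℝ) * Real.log b := by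
            rw [Nat.cast_sub hmm]
            have h9 := hmup p hp
            have h8 := hbig15 q hqQ
            have g4 := hDq q hqQ
            have h11 : (p : ℝ) ≤ q / 2 := by
              have : ((2 * p : ℕ) : ℝ) ≤ q := by exact_mod_cast hq
              push_cast at this
              linarith
            have h12 := mul_le_mul_of_nonneg_right h11 hlb.le
            have h13 : (q : ℝ) * (δ / 2 * Real.log α) ≤ q * (1 / 64 * Real.log α) := by
              apply mul_le_mul_of_nonneg_left _ (Nat.cast_nonneg q)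
              apply mul_le_mul_of_nonneg_right _ hlb.le
              linarith
            have h14 : 0 ≤ (q : ℝ) * Real.log α := by positivity
            linarith
          have hcn : ∀ k < b ^ m p, cnt q (A q + b ^ (m q - m p) * k) (b ^ (m q - m p)) ≤
              C1 * wt q * (b : ℝ) ^ (m q - m p) := by
            intro k hk
            obtain ⟨h8, h9⟩ := hblk p hp q hpq k hk
            have h10 := hP1 q (by omega) (A q + b ^ (m q - m p) * k) (b ^ (m q - m p))
              ((hA1 q hqQ).trans h8) (by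
                have : b ^ (m q - m p) ≤ b ^ m q := Nat.pow_le_pow_right (by omega) (by omega)
                have := hadm.dig q (by omega)
                omega) (by
              push_cast
              rw [Real.log_pow]
              exact hh)
            push_cast at h10
            exact h10
          rw [corr_p hb A m hmm, inv_mul_eq_div, div_le_iff₀ h0]
          calc ∑ k ∈ range (b ^ m p), ∑ r ∈ range (b ^ (m q - m p)),
                fn p (A p + k) * fn q (A q + (b ^ (m q - m p) * k + r)) =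
              ∑ k ∈ range (b ^ m p), fn p (A p + k) *
                cnt q (A q + b ^ (m q - m p) * k) (b ^ (m q - m p)) := by
                refine Finset.sum_congr rfl fun k _ => ?_
                rw [← Finset.mul_sum]
                unfold cnt
                congr 1
                refine Finset.sum_congr rfl fun r _ => ?_
                rw [add_assoc]
            _ ≤ ∑ k ∈ range (b ^ m p), fn p (A p + k) * (C1 * wt q * (b : ℝ) ^ (m q - m p)) := by
                refine Finset.sum_le_sum fun k hk => ?_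
                rw [mem_range] at hk
                exact mul_le_mul_of_nonneg_left (hcn k hk) (fn_nonneg _ _)
            _ = cnt p (A p) (b ^ m p) * (C1 * wt q * (b : ℝ) ^ (m q - m p)) := by
                rw [← Finset.sum_mul]
                rfl
            _ = ee b A m p * (C1 * wt q * (b : ℝ) ^ m q) := by
                unfold ee
                rw [hpw p hp q hpq]
                field_simp
            _ ≤ (C1 * wt p) * (C1 * wt q * (b : ℝ) ^ m q) := by
                apply mul_le_mul_of_nonneg_right (hup p hp)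
                have := wt_nonneg q
                positivity
            _ = _ := by ring
        rw [abs_of_nonneg (integral_nonneg fun t => mul_nonneg (fn_nonneg _ _) (fn_nonneg _ _))]
        refine hprod.trans ?_
        refine mul_le_mul_of_nonneg_right ?_ hwpq
        rw [hK]; linarith
      · rw [abs_zero]; positivity)
    (by
      intro p hp q hq hq2
      have hE0 : 0 ≤ (Real.log p / p) ^ 2 + (α ^ (q - p))⁻¹ * (Real.log p / p) := by
        have := hw0 p
        positivity
      simp only [hJ]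
      split_ifs with hpQ
      · have hpq : p ≤ q := hq.le
        have hqQ : Q0 ≤ q := by omega
        have hmm := hadm.mono p (by omega) q hpq
        have hprod : ∫ t, gf b A m p t * gf b A m q t ∂U01 ≤
            K2 * ((Real.log p / p) ^ 2 + (α ^ (q - p))⁻¹ * (Real.log p / p)) := by
          have h0 : (0 : ℝ) < (b : ℝ) ^ m q := by positivity
          have h5 := hP2 p (by omega) q hpq hq2 (A p) (A q) (m p) (m q - m p)
            (hadm.lo p (by omega)) (hadm.up p (by omega)) (hadm.lo q (by omega))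
            (hadm.up q (by omega)) (hadm.dig p (by omega))
            (by rw [Nat.sub_add_cancel hmm]; exact hadm.dig q (by omega)) (hbig15 p hp)
            (by rw [Nat.sub_add_cancel hmm]; exact hbig15 q hqQ)
          rw [Nat.sub_add_cancel hmm] at h5
          rw [corr_p hb A m hmm, inv_mul_eq_div, div_le_iff₀ h0]
          exact h5
        rw [abs_of_nonneg (integral_nonneg fun t => mul_nonneg (fn_nonneg _ _) (fn_nonneg _ _))]
        refine hprod.trans ?_
        refine mul_le_mul_of_nonneg_right ?_ hE0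
        rw [hK]
        have : 0 ≤ C1 ^ 2 := sq_nonneg C1
        linarith
      · rw [abs_zero]
        exact mul_nonneg hKp.le hE0)
  obtain ⟨C2, hC2, hcp⟩ := count_primes
  -- the near weights
  have hnear : ∀ q ≥ P', ∀ T : Finset ℕ, (∀ p ∈ T, p.Prime ∧ P' ≤ p ∧ p < q ∧ lv b α δ q < m p) →
      ∑ p ∈ T, wt p ≤ 2 * C2 / δ := by
    intro q hq T hT
    have hqQ : Q0 ≤ q := by omega
    have hq16' := hq16 q hqQ
    have hlq := hlq1 q hqQ
    have h1 : ∀ p ∈ T, wt p ≤ Real.log q / (δ / 2 * q) := by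
      intro p hp
      obtain ⟨g1, g2, g3, g4⟩ := hT p hp
      have h2 := hcomp q hqQ p (by omega) g4
      have hp0 : (0 : ℝ) < p := by exact_mod_cast g1.pos
      refine div_le_div₀ (by linarith) ?_ (by positivity) h2
      exact Real.log_le_log hp0 (by exact_mod_cast g3.le)
    have hcard : (T.card : ℝ) ≤ C2 * q / Real.log q := hcp q (by omega) T fun p hp =>
      ⟨(hT p hp).1, (hT p hp).2.2.1⟩
    calc ∑ p ∈ T, wt p ≤ ∑ p ∈ T, Real.log q / (δ / 2 * q) := Finset.sum_le_sum h1
      _ = T.card * (Real.log q / (δ / 2 * q)) := by rw [Finset.sum_const, nsmul_eq_mul]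
      _ ≤ (C2 * q / Real.log q) * (Real.log q / (δ / 2 * q)) := by gcongr
      _ = 2 * C2 / δ := by field_simp
  refine ⟨P', ?_, ?_, ?_, ?_⟩
  · refine row_of fn01 hb (K := C1) (C := C' * (1 + 2 * C2 / δ) + 2 * C2 / δ)
      (fun q hq => hlm q (by omega)) wt_nonneg wt_le_one (fun _ => le_rfl)
      ⟨1, zero_le_one, fun q _ => by rw [mul_one]; exact wt_le_one q⟩ hC1 (by positivity)
      (ae_U01 fun t h0 h1 q hq _ => (hmeans q (by omega) t h0 h1).2)
      (fun q hq _ => by
        have : ∫ t, gF fn b A m q t ∂U01 = ee b A m q := ee_eq hb A m q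
        rw [this]
        exact hup q (by omega)) ?_ ?_
    · intro q hq hqp T hT
      have h1 : ∑ p ∈ T, ∫ t, gF fn b A m p t * gF fn b A m q t ∂U01 = ∑ p ∈ T, |J p q| := by
        refine Finset.sum_congr rfl fun p hp => ?_
        obtain ⟨g1, g2, g3, g4⟩ := hT p hp
        simp only [hJ]
        rw [if_pos ⟨by omega, g4⟩, abs_of_nonneg
          (integral_nonneg fun t => mul_nonneg (fn_nonneg _ _) (fn_nonneg _ _))]
        rfl
      rw [h1, mul_one]
      have h2 := hrow q hq T fun p hp => ⟨(hT p hp).1, (hT p hp).2.1, (hT p hp).2.2.1⟩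
      refine h2.trans ?_
      have h3 := hnear q hq (T.filter (fun p : ℕ => δ / 4 * q / Real.log q < (p : ℝ))) fun p hp => by
        rw [mem_filter] at hp
        exact hT p hp.1
      have h4 : ∑ p ∈ T.filter (fun p : ℕ => δ / 4 * q / Real.log q < (p : ℝ)), Real.log p / (p : ℝ) ≤
          2 * C2 / δ := h3
      have h5 := wt_nonneg q
      have h6 : C' * (wt q * (1 + ∑ p ∈ T.filter
          (fun p : ℕ => δ / 4 * q / Real.log q < (p : ℝ)), Real.log p / (p : ℝ))) ≤
          C' * (wt q * (1 + 2 * C2 / δ)) := by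
        gcongr
      refine h6.trans ?_
      have h7 : 0 ≤ 2 * C2 / δ * wt q := by positivity
      linarith
    · intro q hq hqp T hT
      have h1 := hnear q hq T hT
      rw [mul_one]
      refine h1.trans ?_
      have : 0 ≤ C' * (1 + 2 * C2 / δ) := by positivity
      linarith
  · exact ae_U01 fun t h0 h1 q hq _ => (hmeans q (by omega) t h0 h1).1
  · exact ae_U01 fun t h0 h1 q hq _ => (hmeans q (by omega) t h0 h1).2
  · intro q hq _
    have : ∫ t, gF fn b A m q t ∂U01 = ee b A m q := ee_eq hb A m q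
    rw [this]
    exact hup q (by omega)

end Pool.Agent.Y895.OL
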