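import Pool.Agent.Y895.OL.A4
import Pool.Agent.TH888.R.Asy

set_option autoImplicit false

/-!
# The order law at almost every point, with a positive proportion of prescribed upper digits
-/

open Filter Topology MeasureTheory Finset
open scoped Real

namespace Pool.Agent.Y895.OL

open Pool.Agent.TH888.R (wt wt_nonneg VS cS)
open Pool.Agent.H305R2 (roughPart)
open Pool.Agent.Y895.PM (U01 fn fn01 pow_exp)

/-- order of magnitude and dichotomy at one point -/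
structure Ordr (s : ℕ → ℕ) (c1 c2 : ℝ) (S : Set ℕ) : Prop where
  law : Tendsto (VS S) atTop atTop → ∀ᶠ n : ℕ in atTop,
    c1 * VS S n ≤ cS S s n ∧ (cS S s n : ℝ) ≤ c2 * VS S n
  inf : {p : ℕ | p.Prime ∧ p ∈ S ∧ (roughPart p (s p)).Prime}.Infinite ↔
    Tendsto (VS S) atTop atTop

lemma VI_prime (S : Set ℕ) : VI {p : ℕ | p.Prime} wt S = VS S := by
  funext n
  unfold VI VS
  refine Finset.sum_congr rfl fun q _ => ?_
  by_cases h1 : q ∈ S ∧ q.Prime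
  · rw [if_pos (show q ∈ S ∧ q ∈ {p : ℕ | p.Prime} from h1), if_pos h1]
  · rw [if_neg (show ¬ (q ∈ S ∧ q ∈ {p : ℕ | p.Prime}) from h1), if_neg h1]

lemma FI_prime {f : ℕ → ℝ → ℝ} {x : ℝ} {s : ℕ → ℕ} (hf : ∀ q, f q x = fn q (s q)) (S : Set ℕ)
    (n : ℕ) : FI {p : ℕ | p.Prime} f S n x = (cS S s n : ℝ) := by
  classical
  unfold FI cS
  rw [Finset.card_eq_sum_ones, Finset.sum_filter]
  push_cast
  refine Finset.sum_congr rfl fun q _ => ?_
  rw [hf]
  unfold fn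
  by_cases h1 : q ∈ S ∧ q.Prime
  · rw [if_pos (show q ∈ S ∧ q ∈ {p : ℕ | p.Prime} from h1)]
    by_cases h2 : (roughPart q (s q)).Prime
    · rw [if_pos h2, if_pos ⟨h1.2, h1.1, h2⟩]
    · rw [if_neg h2, if_neg fun h => h2 h.2.2]
  · rw [if_neg (show ¬ (q ∈ S ∧ q ∈ {p : ℕ | p.Prime}) from h1), if_neg fun h => h1 ⟨h.2.1, h.1⟩]

lemma cS_le_card {s : ℕ → ℕ} {S : Set ℕ}
    (hfin : {p : ℕ | p.Prime ∧ p ∈ S ∧ (roughPart p (s p)).Prime}.Finite) (n : ℕ) :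
    cS S s n ≤ hfin.toFinset.card := by
  classical
  unfold cS
  refine Finset.card_le_card fun q hq => ?_
  rw [mem_filter] at hq
  rw [Set.Finite.mem_toFinset]
  exact hq.2

/-- **The order law.** -/
theorem ord_fb : ∃ δ : ℝ, 0 < δ ∧ δ < 1 ∧ ∀ α : ℝ, 1 < α → ∃ c1 c2 : ℝ, 0 < c1 ∧ 0 < c2 ∧
    ∀ b : ℕ, 2 ≤ b → ∀ c C : ℝ, 0 < c → 0 < C → ∀ A m : ℕ → ℕ,
    (∀ᶠ p in atTop, m p ≤ m (p + 1)) →
    (∀ᶠ p : ℕ in atTop, c * α ^ p ≤ A p ∧ (A p : ℝ) ≤ C * α ^ p ∧ b ^ m p ≤ A p ∧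
      (p : ℝ) * (1 - δ) * Real.log α ≤ m p * Real.log b) →
    ∀ S : Set ℕ, ∀ᵐ t : ℝ, 0 ≤ t → t < 1 →
      Ordr (fun p => A p + ⌊(b : ℝ) ^ m p * t⌋₊) c1 c2 S := by
  obtain ⟨δ, η, hδ, hδ1, hη, h⟩ := row_fb
  refine ⟨δ, hδ, hδ1, fun α hα => ?_⟩
  obtain ⟨K, hK, hrow⟩ := h α hα
  have hlb : 0 < Real.log α := Real.log_pos hα
  refine ⟨η / Real.log α / 2, 2 * K, by positivity, by positivity,
    fun b hb c C hc hC A m hm hA S => ?_⟩
  obtain ⟨P, hP⟩ := (hm.and hA).exists_forall_of_atTop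
  have hadm : AdmD b α δ c C A m P := by
    refine ⟨fun p hp q hq => ?_, fun p hp => (hP p hp).2.1, fun p hp => (hP p hp).2.2.1,
      fun p hp => (hP p hp).2.2.2.1, fun p hp => (hP p hp).2.2.2.2⟩
    induction q, hq using Nat.le_induction with
    | base => exact le_rfl
    | succ q hq ih => exact ih.trans (hP q (le_trans hp hq)).1
  obtain ⟨Q, hR, hlo, hup, hone⟩ := hrow b hb c C hc hC A m P hadm
  have main : ∀ᵐ t ∂U01, Ordr (fun p => A p + ⌊(b : ℝ) ^ m p * t⌋₊) (η / Real.log α / 2) (2 * K) S := by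
    by_cases hdiv : Tendsto (VS S) atTop atTop
    · have h1 := hR.order (c0 := η / Real.log α) (K := K) (by positivity) hK hlo hup S
        (by rw [VI_prime]; exact hdiv)
      filter_upwards [h1] with t ht
      have hlaw : ∀ᶠ n : ℕ in atTop, η / Real.log α / 2 * VS S n ≤
          cS S (fun p => A p + ⌊(b : ℝ) ^ m p * t⌋₊) n ∧
          (cS S (fun p => A p + ⌊(b : ℝ) ^ m p * t⌋₊) n : ℝ) ≤ 2 * K * VS S n := by
        filter_upwards [ht] with n hn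
        rw [VI_prime] at hn
        have e : FI {p : ℕ | p.Prime} (gF fn b A m) S n t =
            (cS S (fun p => A p + ⌊(b : ℝ) ^ m p * t⌋₊) n : ℝ) :=
          FI_prime (fun q => rfl) S n
        rw [e] at hn
        exact hn
      refine ⟨fun _ => hlaw, ⟨fun _ => hdiv, fun _ hfin => ?_⟩⟩
      set M := hfin.toFinset.card with hM
      have hbd : ∀ n : ℕ, cS S (fun p => A p + ⌊(b : ℝ) ^ m p * t⌋₊) n ≤ M :=
        fun n => cS_le_card hfin n
      have h2 := hdiv.eventually (eventually_gt_atTop ((M : ℝ) / (η / Real.log α / 2)))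
      obtain ⟨n, g1, g2⟩ := (hlaw.and h2).exists
      rw [div_lt_iff₀ (by positivity)] at g2
      have h3 : (cS S (fun p => A p + ⌊(b : ℝ) ^ m p * t⌋₊) n : ℝ) ≤ M := by exact_mod_cast hbd n
      linarith [g1.1]
    · have h1 := fin_of_conv (μ := U01) (f := gF fn b A m) (I := {p : ℕ | p.Prime}) (w := wt) (P := Q)
        (gF_meas fn b A m) (gF_nonneg fn01 b A m) (gF_le_one fn01 b A m) wt_nonneg hK.le hone S
        (by rw [VI_prime]; exact hdiv)
      filter_upwards [h1] with t ht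
      refine ⟨fun hd => absurd hd hdiv, ⟨fun hi => ?_, fun hd => absurd hd hdiv⟩⟩
      exfalso
      apply hi
      refine ht.subset fun q hq => ?_
      obtain ⟨g1, g2, g3⟩ := hq
      refine ⟨g2, g1, ?_⟩
      show fn q (A q + ⌊(b : ℝ) ^ m q * t⌋₊) = 1
      unfold fn
      rw [if_pos g3]
  unfold U01 at main
  rw [ae_restrict_iff' measurableSet_Ico] at main
  filter_upwards [main] with t ht h0 h1
  exact ht ⟨h0, h1⟩

/-- **The order law for truncated sequences.** -/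
theorem ord_trunc : ∃ δ : ℝ, 0 < δ ∧ δ < 1 ∧ ∀ α : ℝ, 1 < α → ∃ c1 c2 : ℝ, 0 < c1 ∧ 0 < c2 ∧
    ∀ b : ℕ, 2 ≤ b → ∀ c C : ℝ, 0 < c → 0 < C → ∀ Q m : ℕ → ℕ,
    (∀ᶠ p : ℕ in atTop, c * α ^ p ≤ Q p ∧ (Q p : ℝ) ≤ C * α ^ p) →
    (∀ᶠ p in atTop, m p ≤ m (p + 1)) → (∀ᶠ p in atTop, b ^ m p ≤ Q p) →
    (∀ᶠ p : ℕ in atTop, Real.log (Q p / b ^ m p : ℕ) ≤ δ * Real.log α * p) →
    ∀ S : Set ℕ, ∀ᵐ t : ℝ, 0 ≤ t → t < 1 →
      Ordr (fun p => b ^ m p * (Q p / b ^ m p) + ⌊(b : ℝ) ^ m p * t⌋₊) c1 c2 S := by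
  obtain ⟨δ, hδ, hδ1, h⟩ := ord_fb
  refine ⟨δ / 2, by positivity, by linarith, fun α hα => ?_⟩
  obtain ⟨c1, c2, hc1, hc2, h⟩ := h α hα
  refine ⟨c1, c2, hc1, hc2, fun b hb c C hc hC Q m hQ hm ht hk S => ?_⟩
  refine h b hb (c / 2) C (by positivity) hC (fun p => b ^ m p * (Q p / b ^ m p)) m hm ?_ S
  have hbr : (2 : ℝ) ≤ b := by exact_mod_cast hb
  have hb0 : (0 : ℝ) < b := by linarith
  have hα0 : 0 < α := by linarith
  have hlb : 0 < Real.log α := Real.log_pos hα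
  have hk2 : ∀ᶠ p : ℕ in atTop, (|Real.log c| + Real.log 2) / (δ / 2 * Real.log α) ≤ p :=
    tendsto_natCast_atTop_atTop.eventually_ge_atTop _
  filter_upwards [hQ, ht, hk, hk2] with p hp h1 h2 h3
  obtain ⟨q1, q2⟩ := hp
  rw [div_le_iff₀ (by positivity)] at h3
  have hpos : 0 < b ^ m p := by positivity
  have hposR : (0 : ℝ) < (b : ℝ) ^ m p := by positivity
  set k := Q p / b ^ m p with hk'
  have hk1 : 1 ≤ k := by
    rw [hk', Nat.le_div_iff_mul_le hpos, one_mul]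
    exact h1
  have h4 : Q p < b ^ m p * k + b ^ m p := by
    have := Nat.div_add_mod (Q p) (b ^ m p)
    have h5 := Nat.mod_lt (Q p) hpos
    rw [← hk'] at this
    omega
  have h5 : b ^ m p * k ≤ Q p := Nat.mul_div_le _ _
  have h6 : b ^ m p ≤ b ^ m p * k := Nat.le_mul_of_pos_right _ hk1
  have h7 : Q p ≤ 2 * (b ^ m p * k) := by omega
  have h7' : (Q p : ℝ) ≤ 2 * ((b ^ m p * k : ℕ) : ℝ) := by exact_mod_cast h7
  have h5' : ((b ^ m p * k : ℕ) : ℝ) ≤ Q p := by exact_mod_cast h5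
  have hkR : (1 : ℝ) ≤ k := by exact_mod_cast hk1
  refine ⟨by linarith, by linarith, h6, ?_⟩
  have h8 : Real.log (c * α ^ p) ≤ Real.log (2 * ((b ^ m p * k : ℕ) : ℝ)) :=
    Real.log_le_log (by positivity) (q1.trans h7')
  have e1 : Real.log (2 * ((b ^ m p * k : ℕ) : ℝ)) =
      Real.log 2 + (m p * Real.log b + Real.log k) := by
    push_cast
    rw [Real.log_mul (by norm_num) (by positivity), Real.log_mul (by positivity) (by positivity),
      Real.log_pow]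
  rw [e1, Real.log_mul hc.ne' (by positivity), Real.log_pow] at h8
  have h9 := neg_abs_le (Real.log c)
  linarith

end Pool.Agent.Y895.OL
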